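import Mathlib

/-!
# Parity games with memory strategies
-/

namespace Pool.Agent.MuCraig

/-- A parity game arena.  `own p = true` means that the position `p` belongs to Eve. A player who
has to move but has no move loses. -/
structure Game where
  P : Type
  own : P → Bool
  mv : P → P → Prop
  pr : P → ℕ

/-- The sequence `f` of priorities is winning for `b` (Eve for `b = true`): the largest priority
occurring infinitely often is even for Eve and odd for Adam. -/
def Good (b : Bool) (f : ℕ → ℕ) : Prop :=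
  ∃ k, (k % 2 = 0 ↔ b = true) ∧ (∀ n, ∃ m, n ≤ m ∧ f m = k) ∧ (∃ n, ∀ m, n ≤ m → f m ≤ k)

theorem Good.of_tail {b : Bool} {f : ℕ → ℕ} (a : ℕ) (h : Good b (fun n => f (a + n))) :
    Good b f := by
  obtain ⟨k, hk, h1, n, h2⟩ := h
  refine ⟨k, hk, ?_, a + n, ?_⟩
  · intro n
    obtain ⟨m, hm, hm'⟩ := h1 n
    exact ⟨a + m, by omega, hm'⟩
  · intro m hm
    have := h2 (m - a) (by omega)
    have e : a + (m - a) = m := by omega
    simpa [e] using this

/-- A winning strategy with memory for player `b`: the memory states `Z` are mapped to positions. -/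
structure Strat (b : Bool) (G : Game) where
  Z : Type
  π : Z → G.P
  S : Z → Z → Prop
  own_step : ∀ z, G.own (π z) = b → ∃ z', S z z'
  opp_step : ∀ z, G.own (π z) ≠ b → ∀ p, G.mv (π z) p → ∃ z', S z z' ∧ π z' = p
  legal : ∀ z z', S z z' → G.mv (π z) (π z')
  good : ∀ f : ℕ → Z, (∀ n, S (f n) (f (n + 1))) → Good b (fun n => G.pr (π (f n)))

/-- Player `b` wins from the position `p`. -/
def Wins (b : Bool) (G : Game) (p : G.P) : Prop := ∃ s : Strat b G, ∃ z, s.π z = p

section glue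

variable {b : Bool} {G : Game} (I : Type) (Z : I → Type) (π : ∀ i, Z i → G.P)
  (S : ∀ i, Z i → Z i → Prop) (J : (Σ i, Z i) → (Σ i, Z i) → Prop)

inductive GStep : (Σ i, Z i) → (Σ i, Z i) → Prop
  | inner (i : I) (z z' : Z i) : S i z z' → GStep ⟨i, z⟩ ⟨i, z'⟩
  | jump (x y : Σ i, Z i) : J x y → GStep x y

/-- Gluing of blocks. -/
theorem glue
    (own_step : ∀ i z, G.own (π i z) = b → (∃ z', S i z z') ∨ (∃ y, J ⟨i, z⟩ y))
    (opp_step : ∀ i z, G.own (π i z) ≠ b → ∀ p, G.mv (π i z) p →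
      (∃ z', S i z z' ∧ π i z' = p) ∨ (∃ y, J ⟨i, z⟩ y ∧ π y.1 y.2 = p))
    (legalS : ∀ i z z', S i z z' → G.mv (π i z) (π i z'))
    (legalJ : ∀ x y, J x y → G.mv (π x.1 x.2) (π y.1 y.2))
    (goodS : ∀ i (f : ℕ → Z i), (∀ n, S i (f n) (f (n + 1))) → Good b (fun n => G.pr (π i (f n))))
    (goodJ : ∀ f : ℕ → Σ i, Z i, (∀ n, GStep I Z S J (f n) (f (n + 1))) →
      (∀ n, ∃ m, n ≤ m ∧ J (f m) (f (m + 1))) →
      Good b (fun n => G.pr (π (f n).1 (f n).2))) :
    ∀ i z, Wins b G (π i z) := by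
  intro i z
  refine ⟨⟨Σ i, Z i, fun x => π x.1 x.2, GStep I Z S J, ?_, ?_, ?_, ?_⟩, ⟨i, z⟩, rfl⟩
  · rintro ⟨i, z⟩ h
    rcases own_step i z h with ⟨z', h'⟩ | ⟨y, h'⟩
    · exact ⟨⟨i, z'⟩, GStep.inner _ _ _ h'⟩
    · exact ⟨y, GStep.jump _ _ h'⟩
  · rintro ⟨i, z⟩ h p hp
    rcases opp_step i z h p hp with ⟨z', h', h''⟩ | ⟨y, h', h''⟩
    · exact ⟨⟨i, z'⟩, GStep.inner _ _ _ h', h''⟩
    · exact ⟨y, GStep.jump _ _ h', h''⟩
  · intro x y h
    cases h with
    | inner i z z' h => exact legalS i z z' h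
    | jump _ _ h => exact legalJ x y h
  · intro f hf
    by_cases hJ : ∀ n, ∃ m, n ≤ m ∧ J (f m) (f (m + 1))
    · exact goodJ f hf hJ
    · push Not at hJ
      obtain ⟨n0, hn0⟩ := hJ
      have key : ∀ m, ∃ z : Z (f n0).1, f (n0 + m) = ⟨(f n0).1, z⟩ := by
        intro m
        induction m with
        | zero => exact ⟨(f n0).2, rfl⟩
        | succ m ih =>
          obtain ⟨z, hz⟩ := ih
          have h1 := hf (n0 + m)
          have h2 := hn0 (n0 + m) (by omega)
          have e : n0 + (m + 1) = n0 + m + 1 := by omega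
          rw [e]
          generalize hy : f (n0 + m + 1) = y at *
          rw [hz] at h1 h2
          cases h1 with
          | inner _ _ z' _ => exact ⟨z', rfl⟩
          | jump _ _ h => exact absurd h h2
      choose g hg using key
      have hS : ∀ m, S (f n0).1 (g m) (g (m + 1)) := by
        intro m
        have h1 := hf (n0 + m)
        have h2 := hn0 (n0 + m) (by omega)
        have e : n0 + m + 1 = n0 + (m + 1) := by omega
        rw [e, hg m, hg (m + 1)] at h1 h2
        cases h1 with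
        | inner _ _ _ h => exact h
        | jump _ _ h => exact absurd h h2
      apply Good.of_tail n0
      have e : (fun n => G.pr (π (f (n0 + n)).1 (f (n0 + n)).2)) =
          fun n => G.pr (π (f n0).1 (g n)) := by
        funext n
        rw [hg n]
      show Good b (fun n => G.pr (π (f (n0 + n)).1 (f (n0 + n)).2))
      rw [e]
      exact goodS _ g hS

end glue

/-- Gluing of a partial strategy with winning positions. -/
theorem glue2 {b : Bool} {G : Game} (Z : Type) (π : Z → G.P) (S : Z → Z → Prop)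
    (own_step : ∀ z, G.own (π z) = b → (∃ z', S z z') ∨ (∃ p, G.mv (π z) p ∧ Wins b G p))
    (opp_step : ∀ z, G.own (π z) ≠ b → ∀ p, G.mv (π z) p →
      (∃ z', S z z' ∧ π z' = p) ∨ Wins b G p)
    (legalS : ∀ z z', S z z' → G.mv (π z) (π z'))
    (goodS : ∀ (f : ℕ → Z), (∀ n, S (f n) (f (n + 1))) → Good b (fun n => G.pr (π (f n)))) :
    ∀ z, Wins b G (π z) := by
  classical
  let T := {p : G.P // Wins b G p}
  let σ : T → Strat b G := fun p => p.2.choose
  let pt : ∀ p : T, (σ p).Z := fun p => p.2.choose_spec.choose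
  have hpt : ∀ p : T, (σ p).π (pt p) = p.1 := fun p => p.2.choose_spec.choose_spec
  let Z' : Option T → Type := fun i => match i with
    | none => Z
    | some p => (σ p).Z
  let π' : ∀ i, Z' i → G.P := fun i => match i with
    | none => π
    | some p => (σ p).π
  let S' : ∀ i, Z' i → Z' i → Prop := fun i => match i with
    | none => S
    | some p => (σ p).S
  let J : (Σ i, Z' i) → (Σ i, Z' i) → Prop := fun x y =>
    ∃ (z : Z) (p : T), x = ⟨none, z⟩ ∧ y = ⟨some p, pt p⟩ ∧ G.mv (π z) p.1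
  have := glue (b := b) (G := G) (Option T) Z' π' S' J ?_ ?_ ?_ ?_ ?_ ?_
  · intro z
    exact this none z
  · rintro (_ | p) z h
    · rcases own_step z h with h1 | ⟨p, h1, h2⟩
      · exact Or.inl h1
      · exact Or.inr ⟨⟨some ⟨p, h2⟩, pt ⟨p, h2⟩⟩, z, ⟨p, h2⟩, rfl, rfl, h1⟩
    · exact Or.inl ((σ p).own_step z h)
  · rintro (_ | p) z h r hr
    · rcases opp_step z h r hr with h1 | h1
      · exact Or.inl h1
      · exact Or.inr ⟨⟨some ⟨r, h1⟩, pt ⟨r, h1⟩⟩, ⟨z, ⟨r, h1⟩, rfl, rfl, hr⟩, hpt ⟨r, h1⟩⟩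
    · exact Or.inl ((σ p).opp_step z h r hr)
  · rintro (_ | p) z z' h
    · exact legalS z z' h
    · exact (σ p).legal z z' h
  · rintro x y ⟨z, p, rfl, rfl, h⟩
    show G.mv (π z) ((σ p).π (pt p))
    rw [hpt]
    exact h
  · rintro (_ | p) f hf
    · exact goodS f hf
    · exact (σ p).good f hf
  · intro f hstep hf
    exfalso
    obtain ⟨m, _, z, p, h1, h2, _⟩ := hf 0
    obtain ⟨m', hm', z', p', h1', h2', _⟩ := hf (m + 1)
    -- no jump leads back to the block `none`, and there are no jumps from other blocks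
    have key : ∀ k, ∃ y, f (m + 1 + k) = ⟨some p, y⟩ := by
      intro k
      induction k with
      | zero => exact ⟨pt p, h2⟩
      | succ k ih =>
        obtain ⟨y, hy⟩ := ih
        have h3 := hstep (m + 1 + k)
        have e : m + 1 + (k + 1) = m + 1 + k + 1 := by omega
        rw [e]
        generalize f (m + 1 + k + 1) = u at *
        rw [hy] at h3
        cases h3 with
        | inner _ _ y' _ => exact ⟨y', rfl⟩
        | jump _ _ h =>
          obtain ⟨_, _, h4, _, _⟩ := h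
          exact absurd (congrArg Sigma.fst h4) (by simp)
    obtain ⟨y, hy⟩ := key (m' - (m + 1))
    have e : m + 1 + (m' - (m + 1)) = m' := by omega
    rw [e, h1'] at hy
    exact absurd (congrArg Sigma.fst hy) (by simp)

/-- One-step characterisation, first half. -/
theorem wins_own {b : Bool} {G : Game} (p : G.P) (h : G.own p = b) (r : G.P) (hr : G.mv p r)
    (hw : Wins b G r) : Wins b G p := by
  refine glue2 (b := b) (G := G) Unit (fun _ => p) (fun _ _ => False) ?_ ?_ ?_ ?_ ()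
  · intro _ _; exact Or.inr ⟨r, hr, hw⟩
  · intro _ h'; exact absurd h h'
  · intro _ _ h; exact h.elim
  · intro f hf; exact (hf 0).elim

/-- One-step characterisation, second half. -/
theorem wins_opp {b : Bool} {G : Game} (p : G.P) (h : G.own p ≠ b)
    (hw : ∀ r, G.mv p r → Wins b G r) : Wins b G p := by
  refine glue2 (b := b) (G := G) Unit (fun _ => p) (fun _ _ => False) ?_ ?_ ?_ ?_ ()
  · intro _ h'; exact absurd h' h
  · intro _ _ r hr; exact Or.inr (hw r hr)
  · intro _ _ h; exact h.elim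
  · intro f hf; exact (hf 0).elim

/-- If `p` has exactly one move, to `r`, then it suffices to win from `r`. -/
theorem wins_forced {b : Bool} {G : Game} (p r : G.P) (h : ∀ r', G.mv p r' ↔ r' = r)
    (hw : Wins b G r) : Wins b G p := by
  by_cases ho : G.own p = b
  · exact wins_own p ho r ((h r).2 rfl) hw
  · apply wins_opp p ho
    intro r' hr'
    rw [(h r').1 hr']
    exact hw

/-- `G` is embedded in `G'` by `ι`, except that the dead ends `p` with `Ex p` get a single move, to
`t p`, in `G'`. -/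
structure ExitEmb (G G' : Game) (Ex : G.P → Prop) (t : G.P → G'.P) (ι : G.P → G'.P) : Prop where
  ex_mv : ∀ p, Ex p → ∀ p', ¬ G.mv p p'
  own : ∀ p, ¬ Ex p → G'.own (ι p) = G.own p
  pr : ∀ p, ¬ Ex p → G'.pr (ι p) = G.pr p
  mv : ∀ p, ¬ Ex p → ∀ p', G'.mv (ι p) p' ↔ ∃ r, G.mv p r ∧ p' = ι r
  ex_mv' : ∀ p, Ex p → ∀ p', G'.mv (ι p) p' ↔ p' = t p

theorem ExitEmb.own_ex {b : Bool} {G G' : Game} {Ex : G.P → Prop} {t : G.P → G'.P}
    {ι : G.P → G'.P} (h : ExitEmb G G' Ex t ι) (s : Strat b G) (z : s.Z) (hz : Ex (s.π z)) :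
    G.own (s.π z) ≠ b := by
  intro h1
  obtain ⟨z', hz'⟩ := s.own_step z h1
  exact h.ex_mv _ hz _ (s.legal z z' hz')

/-- Composition of a winning strategy with winning positions at the exits. -/
theorem ExitEmb.wins {b : Bool} {G G' : Game} {Ex : G.P → Prop} {t : G.P → G'.P}
    {ι : G.P → G'.P} (h : ExitEmb G G' Ex t ι)
    (hex : ∀ p, Ex p → G.own p ≠ b → Wins b G' (t p)) (p : G.P) (hp : Wins b G p) :
    Wins b G' (ι p) := by
  obtain ⟨s, z0, rfl⟩ := hp
  refine glue2 (b := b) (G := G') s.Z (fun z => ι (s.π z)) s.S ?_ ?_ ?_ ?_ z0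
  · intro z hz
    by_cases he : Ex (s.π z)
    · exact Or.inr ⟨t (s.π z), (h.ex_mv' _ he _).2 rfl, hex _ he (h.own_ex s z he)⟩
    · rw [h.own _ he] at hz
      exact Or.inl (s.own_step z hz)
  · intro z hz p hp
    by_cases he : Ex (s.π z)
    · rw [h.ex_mv' _ he] at hp
      rw [hp]
      exact Or.inr (hex _ he (h.own_ex s z he))
    · rw [h.own _ he] at hz
      rw [h.mv _ he] at hp
      obtain ⟨r, hr, rfl⟩ := hp
      obtain ⟨z', h1, h2⟩ := s.opp_step z hz r hr
      exact Or.inl ⟨z', h1, by rw [h2]⟩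
  · intro z z' hz
    have h1 := s.legal z z' hz
    have he : ¬ Ex (s.π z) := fun he => h.ex_mv _ he _ h1
    exact (h.mv _ he _).2 ⟨_, h1, rfl⟩
  · intro f hf
    have h1 := s.good f hf
    have e : (fun n => G'.pr (ι (s.π (f n)))) = fun n => G.pr (s.π (f n)) := by
      funext n
      exact h.pr _ (fun he => h.ex_mv _ he _ (s.legal _ _ (hf n)))
    rw [e]
    exact h1

/-- Coinductive composition: the exits lead back to restart positions, which carry the largest
priority `k`, good for the player `b`. -/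
theorem ExitEmb.wins_coind {b : Bool} {G G' : Game} {Ex : G.P → Prop} {t : G.P → G'.P}
    {ι : G.P → G'.P} (h : ExitEmb G G' Ex t ι) (k : ℕ) (hk : k % 2 = 0 ↔ b = true)
    (hle : ∀ p, G'.pr p ≤ k) (D : Set G'.P) (hD : ∀ d ∈ D, G'.pr d = k)
    (start : G'.P → G.P) (hst : ∀ d ∈ D, ∀ p', G'.mv d p' ↔ p' = ι (start d))
    (hw : ∀ d ∈ D, Wins b G (start d))
    (hex : ∀ p, Ex p → G.own p ≠ b → t p ∈ D) : ∀ d ∈ D, Wins b G' d := by
  classical
  let σ : ∀ d : D, Strat b G := fun d => (hw d.1 d.2).choose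
  let pt : ∀ d : D, (σ d).Z := fun d => (hw d.1 d.2).choose_spec.choose
  have hpt : ∀ d : D, (σ d).π (pt d) = start d.1 := fun d => (hw d.1 d.2).choose_spec.choose_spec
  let Z' : D → Type := fun d => Option (σ d).Z
  let π' : ∀ d, Z' d → G'.P := fun d z => match z with
    | none => d.1
    | some z => ι ((σ d).π z)
  let S' : ∀ d, Z' d → Z' d → Prop := fun d z z' =>
    (z = none ∧ z' = some (pt d)) ∨ (∃ u u', z = some u ∧ z' = some u' ∧ (σ d).S u u')
  let J : (Σ i, Z' i) → (Σ i, Z' i) → Prop := fun x y =>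
    ∃ (d d' : D) (z : (σ d).Z), x = ⟨d, some z⟩ ∧ y = ⟨d', none⟩ ∧ Ex ((σ d).π z) ∧
      d'.1 = t ((σ d).π z)
  have := glue (b := b) (G := G') D Z' π' S' J ?_ ?_ ?_ ?_ ?_ ?_
  · intro d hd
    exact this ⟨d, hd⟩ none
  · rintro d (_ | z) hz
    · exact Or.inl ⟨some (pt d), Or.inl ⟨rfl, rfl⟩⟩
    · by_cases he : Ex ((σ d).π z)
      · right
        exact ⟨⟨⟨_, hex _ he (h.own_ex (σ d) z he)⟩, none⟩, d, _, z, rfl, rfl, he, rfl⟩
      · left
        have hz' : G'.own (ι ((σ d).π z)) = b := hz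
        rw [h.own _ he] at hz'
        obtain ⟨z', hz'⟩ := (σ d).own_step z hz'
        exact ⟨some z', Or.inr ⟨z, z', rfl, rfl, hz'⟩⟩
  · rintro d (_ | z) hz p hp
    · left
      have hp' : G'.mv d.1 p := hp
      rw [hst d.1 d.2] at hp'
      refine ⟨some (pt d), Or.inl ⟨rfl, rfl⟩, ?_⟩
      show ι ((σ d).π (pt d)) = p
      rw [hpt, hp']
    · have hz' : G'.own (ι ((σ d).π z)) ≠ b := hz
      have hp' : G'.mv (ι ((σ d).π z)) p := hp
      by_cases he : Ex ((σ d).π z)
      · right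
        rw [h.ex_mv' _ he] at hp'
        exact ⟨⟨⟨_, hex _ he (h.own_ex (σ d) z he)⟩, none⟩, ⟨d, _, z, rfl, rfl, he, rfl⟩, hp'.symm⟩
      · left
        rw [h.own _ he] at hz'
        rw [h.mv _ he] at hp'
        obtain ⟨r, hr, rfl⟩ := hp'
        obtain ⟨z', h1, h2⟩ := (σ d).opp_step z hz' r hr
        refine ⟨some z', Or.inr ⟨z, z', rfl, rfl, h1⟩, ?_⟩
        show ι ((σ d).π z') = ι r
        rw [h2]
  · rintro d z z' (⟨rfl, rfl⟩ | ⟨u, u', rfl, rfl, hu⟩)
    · show G'.mv d.1 (ι ((σ d).π (pt d)))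
      rw [hst d.1 d.2, hpt]
    · have h1 := (σ d).legal u u' hu
      have he : ¬ Ex ((σ d).π u) := fun he => h.ex_mv _ he _ h1
      exact (h.mv _ he _).2 ⟨_, h1, rfl⟩
  · rintro x y ⟨d, d', z, rfl, rfl, he, hd'⟩
    show G'.mv (ι ((σ d).π z)) d'.1
    rw [h.ex_mv' _ he]
    exact hd'
  · intro d f hf
    -- from the first step on the path stays in the strategy
    have key : ∀ n, ∃ u, f (1 + n) = some u := by
      intro n
      have := hf n
      rw [Nat.add_comm]
      rcases this with ⟨_, h2⟩ | ⟨_, u', _, h2, _⟩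
      · exact ⟨_, h2⟩
      · exact ⟨_, h2⟩
    choose g hg using key
    have hS : ∀ n, (σ d).S (g n) (g (n + 1)) := by
      intro n
      have h1 := hf (1 + n)
      have e : 1 + n + 1 = 1 + (n + 1) := by omega
      rw [e, hg n, hg (n + 1)] at h1
      rcases h1 with ⟨h2, _⟩ | ⟨u, u', h2, h3, h4⟩
      · exact absurd h2 (by simp)
      · have e2 : g n = u := Option.some.inj h2
        have e3 : g (n + 1) = u' := Option.some.inj h3
        rw [e2, e3]
        exact h4
    apply Good.of_tail 1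
    have h1 := (σ d).good g hS
    have e : (fun n => G'.pr (π' d (f (1 + n)))) = fun n => G.pr ((σ d).π (g n)) := by
      funext n
      rw [hg n]
      exact h.pr _ (fun he => h.ex_mv _ he _ ((σ d).legal _ _ (hS n)))
    show Good b (fun n => G'.pr (π' d (f (1 + n))))
    rw [e]
    exact h1
  · intro f _ hJ
    refine ⟨k, hk, ?_, 0, fun m _ => hle _⟩
    intro n
    obtain ⟨m, hm, d, d', z, _, h2, _, _⟩ := hJ n
    refine ⟨m + 1, by omega, ?_⟩
    show G'.pr (π' (f (m + 1)).1 (f (m + 1)).2) = k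
    rw [h2]
    exact hD d'.1 d'.2

end Pool.Agent.MuCraig
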