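import Pool.Agent.MuCraig.Basic
import Pool.Agent.MuCraig.Game

/-!
# Alternating parity automata for the levels of the alternation hierarchy
-/

namespace Pool.Agent.MuCraig

open Fm

/-- Transition conditions of an alternating automaton with state set `Q`.  The Boolean in `bin` and
`mod` is `true` if Eve chooses. -/
inductive Tr (Q : Type) : Type
  | const (b : Bool) : Tr Q
  | lit (b : Bool) (p : ℕ) : Tr Q
  | var (x : ℕ) : Tr Q
  | bin (b : Bool) (q r : Q) : Tr Q
  | mod (b : Bool) (q : Q) : Tr Q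
  | eps (q : Q) : Tr Q

/-- Alternating parity automata (with exits labelled by fixpoint variables). -/
structure Aut where
  Q : Type
  δ : Q → Tr Q
  Ω : Q → ℕ
  q0 : Q

open Classical in
/-- Who has to move in state condition `d` at the point `w`. -/
noncomputable def ownOf {Q : Type} (M : Kripke) (e : ℕ → Set M.W) (d : Tr Q) (w : M.W) : Bool :=
  match d with
  | .const b => !b
  | .lit b p => decide (¬ (w ∈ M.V p ↔ b = true))
  | .var x => decide (w ∉ e x)
  | .bin b _ _ => b
  | .mod b _ => b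
  | .eps _ => true

/-- The possible moves. -/
def mvRel {Q : Type} (M : Kripke) (d : Tr Q) (w : M.W) (r : Q × M.W) : Prop :=
  match d with
  | .const _ => False
  | .lit _ _ => False
  | .var _ => False
  | .bin _ q1 q2 => (r.1 = q1 ∨ r.1 = q2) ∧ r.2 = w
  | .mod _ q1 => r.1 = q1 ∧ M.R w r.2
  | .eps q1 => r.1 = q1 ∧ r.2 = w

/-- The evaluation game of an automaton on a Kripke model. -/
noncomputable def game (A : Aut) (M : Kripke) (e : ℕ → Set M.W) : Game where
  P := A.Q × M.W
  own p := ownOf M e (A.δ p.1) p.2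
  mv p r := mvRel M (A.δ p.1) p.2 r
  pr p := A.Ω p.1

def Tr.map {Q Q' : Type} (f : Q → Q') : Tr Q → Tr Q'
  | .const b => .const b
  | .lit b p => .lit b p
  | .var x => .var x
  | .bin b q r => .bin b (f q) (f r)
  | .mod b q => .mod b (f q)
  | .eps q => .eps (f q)

theorem ownOf_map {Q Q' : Type} (f : Q → Q') (M : Kripke) (e : ℕ → Set M.W) (d : Tr Q) (w : M.W) :
    ownOf M e (d.map f) w = ownOf M e d w := by
  cases d <;> rfl

theorem mvRel_map {Q Q' : Type} (f : Q → Q') (M : Kripke) (d : Tr Q) (w : M.W) (r' : Q' × M.W) :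
    mvRel M (d.map f) w r' ↔ ∃ r, mvRel M d w r ∧ r' = (f r.1, r.2) := by
  cases d with
  | const b => simp [Tr.map, mvRel]
  | lit b p => simp [Tr.map, mvRel]
  | var x => simp [Tr.map, mvRel]
  | bin b q1 q2 =>
    constructor
    · rintro ⟨h1 | h1, h2⟩
      · exact ⟨(q1, w), ⟨Or.inl rfl, rfl⟩, Prod.ext h1 h2⟩
      · exact ⟨(q2, w), ⟨Or.inr rfl, rfl⟩, Prod.ext h1 h2⟩
    · rintro ⟨⟨r1, r2⟩, ⟨h1 | h1, h2⟩, rfl⟩
      · exact ⟨Or.inl (congrArg f h1), h2⟩
      · exact ⟨Or.inr (congrArg f h1), h2⟩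
  | mod b q1 =>
    constructor
    · rintro ⟨h1, h2⟩
      exact ⟨(q1, r'.2), ⟨rfl, h2⟩, Prod.ext h1 rfl⟩
    · rintro ⟨⟨r1, r2⟩, ⟨h1, h2⟩, rfl⟩
      exact ⟨congrArg f h1, h2⟩
  | eps q1 =>
    constructor
    · rintro ⟨h1, h2⟩
      exact ⟨(q1, w), ⟨rfl, rfl⟩, Prod.ext h1 h2⟩
    · rintro ⟨⟨r1, r2⟩, ⟨h1, h2⟩, rfl⟩
      exact ⟨congrArg f h1, h2⟩

/-- `w` satisfies `S` (for `b = true`) or does not (for `b = false`). -/
def Holds (b : Bool) {W : Type} (S : Set W) (w : W) : Prop := (w ∈ S ↔ b = true)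

/-- Families of predicates of Kripke models (depending on an interpretation of the variables). -/
abbrev PFun := ∀ M : Kripke, (ℕ → Set M.W) → Set M.W

/-- `F` is recognised by an automaton with priorities at most `N`. -/
def Rep (N : ℕ) (F : PFun) : Prop :=
  ∃ A : Aut, (∀ q, A.Ω q ≤ N) ∧ ∀ (M : Kripke) (e : ℕ → Set M.W) (b : Bool) (w : M.W),
    Holds b (F M e) w → Wins b (game A M e) (A.q0, w)

theorem Rep.mono {N N' : ℕ} (h : N ≤ N') {F : PFun} (hF : Rep N F) : Rep N' F := by
  obtain ⟨A, h1, h2⟩ := hF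
  exact ⟨A, fun q => (h1 q).trans h, h2⟩

theorem wins_dead {b : Bool} {G : Game} (p : G.P) (h : G.own p ≠ b) (h' : ∀ r, ¬ G.mv p r) :
    Wins b G p := wins_opp p h (fun r hr => absurd hr (h' r))

theorem rep_top : Rep 0 (fun _ _ => Set.univ) := by
  refine ⟨⟨Unit, fun _ => .const true, fun _ => 0, ()⟩, fun _ => le_rfl, ?_⟩
  intro M e b w h
  apply wins_dead
  · have : b = true := h.1 trivial
    rw [this]
    exact Bool.false_ne_true
  · intro r hr; exact hr

theorem rep_bot : Rep 0 (fun _ _ => ∅) := by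
  refine ⟨⟨Unit, fun _ => .const false, fun _ => 0, ()⟩, fun _ => le_rfl, ?_⟩
  intro M e b w h
  apply wins_dead
  · have : ¬ (b = true) := fun hb => (h.2 hb)
    intro h2
    exact this h2.symm
  · intro r hr; exact hr

theorem rep_lit (c : Bool) (p : ℕ) : Rep 0 (fun M _ => {w | w ∈ M.V p ↔ c = true}) := by
  refine ⟨⟨Unit, fun _ => .lit c p, fun _ => 0, ()⟩, fun _ => le_rfl, ?_⟩
  intro M e b w h
  apply wins_dead
  · classical
    intro h2
    have h3 : decide (¬ (w ∈ M.V p ↔ c = true)) = b := by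
      rw [← h2]; simp [game, ownOf]
    have h4 : (w ∈ M.V p ↔ c = true) ↔ b = true := h
    by_cases hb : b = true
    · rw [hb] at h3
      exact (of_decide_eq_true h3) (h4.2 hb)
    · have hb' : b = false := by simpa using hb
      rw [hb'] at h3
      exact (of_decide_eq_false h3) (fun h5 => hb (h4.1 h5))
  · intro r hr; exact hr

theorem rep_var (x : ℕ) : Rep 0 (fun _ e => e x) := by
  refine ⟨⟨Unit, fun _ => .var x, fun _ => 0, ()⟩, fun _ => le_rfl, ?_⟩
  intro M e b w h
  apply wins_dead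
  · classical
    intro h2
    have h3 : decide (w ∉ e x) = b := by
      rw [← h2]; simp [game, ownOf]
    have h4 : w ∈ e x ↔ b = true := h
    by_cases hb : b = true
    · rw [hb] at h3
      exact (of_decide_eq_true h3) (h4.2 hb)
    · have hb' : b = false := by simpa using hb
      rw [hb'] at h3
      exact (of_decide_eq_false h3) (fun h5 => hb (h4.1 h5))
  · intro r hr; exact hr

/-- exits are won by `b` exactly if the point lies (or does not lie) in the corresponding set -/
theorem own_var_ne {Q : Type} {b : Bool} (M : Kripke) (e : ℕ → Set M.W) (x : ℕ) (w : M.W) :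
    ownOf (Q := Q) M e (.var x) w ≠ b ↔ Holds b (e x) w := by
  classical
  unfold ownOf Holds
  cases b <;> simp

/-- A position whose transition condition is `var x`. -/
theorem wins_var {b : Bool} {A : Aut} {M : Kripke} {e : ℕ → Set M.W} {q : A.Q} {w : M.W} {x : ℕ}
    (hq : A.δ q = .var x) (h : Holds b (e x) w) : Wins b (game A M e) (q, w) := by
  apply wins_dead
  · show ownOf M e (A.δ q) w ≠ b
    rw [hq]
    exact (own_var_ne M e x w).2 h
  · intro r hr
    have hr' : mvRel M (A.δ q) w r := hr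
    rw [hq] at hr'
    exact hr'

theorem rep_or : Rep 0 (fun _ e => e 0 ∪ e 1) := by
  refine ⟨⟨Option Bool, fun q => match q with
    | none => .bin true (some true) (some false)
    | some true => .var 0
    | some false => .var 1, fun _ => 0, none⟩, fun _ => le_rfl, ?_⟩
  intro M e b w h
  by_cases hb : b = true
  · have hw : w ∈ e 0 ∪ e 1 := h.2 hb
    rcases hw with hw | hw
    · exact wins_own _ hb.symm (some true, w) ⟨Or.inl rfl, rfl⟩
        (wins_var (x := 0) rfl ⟨fun _ => hb, fun _ => hw⟩)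
    · exact wins_own _ hb.symm (some false, w) ⟨Or.inr rfl, rfl⟩
        (wins_var (x := 1) rfl ⟨fun _ => hb, fun _ => hw⟩)
  · have hw : w ∉ e 0 ∪ e 1 := fun h' => hb (h.1 h')
    refine wins_opp _ (fun h' => hb h'.symm) ?_
    rintro ⟨r, v⟩ ⟨h1, h2⟩
    have h2' : v = w := h2
    subst h2'
    have h1' : r = some true ∨ r = some false := h1
    rcases h1' with rfl | rfl
    · exact wins_var (x := 0) rfl ⟨fun h' => absurd (Or.inl h') hw, fun h' => absurd h' hb⟩
    · exact wins_var (x := 1) rfl ⟨fun h' => absurd (Or.inr h') hw, fun h' => absurd h' hb⟩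

theorem rep_and : Rep 0 (fun _ e => e 0 ∩ e 1) := by
  refine ⟨⟨Option Bool, fun q => match q with
    | none => .bin false (some true) (some false)
    | some true => .var 0
    | some false => .var 1, fun _ => 0, none⟩, fun _ => le_rfl, ?_⟩
  intro M e b w h
  by_cases hb : b = true
  · have hw : w ∈ e 0 ∩ e 1 := h.2 hb
    refine wins_opp _ (fun h' => ?_) ?_
    · have : false = b := h'
      rw [hb] at this
      exact Bool.false_ne_true this
    · rintro ⟨r, v⟩ ⟨h1, h2⟩
      have h2' : v = w := h2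
      subst h2'
      have h1' : r = some true ∨ r = some false := h1
      rcases h1' with rfl | rfl
      · exact wins_var (x := 0) rfl ⟨fun _ => hb, fun _ => hw.1⟩
      · exact wins_var (x := 1) rfl ⟨fun _ => hb, fun _ => hw.2⟩
  · have hw : w ∉ e 0 ∩ e 1 := fun h' => hb (h.1 h')
    have hb' : false = b := by
      cases b
      · rfl
      · exact absurd rfl hb
    by_cases h0 : w ∈ e 0
    · have h1 : w ∉ e 1 := fun h1 => hw ⟨h0, h1⟩
      exact wins_own _ hb' (some false, w) ⟨Or.inr rfl, rfl⟩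
        (wins_var (x := 1) rfl ⟨fun h' => absurd h' h1, fun h' => absurd h' hb⟩)
    · exact wins_own _ hb' (some true, w) ⟨Or.inl rfl, rfl⟩
        (wins_var (x := 0) rfl ⟨fun h' => absurd h' h0, fun h' => absurd h' hb⟩)

theorem rep_dia : Rep 0 (fun M e => {w | ∃ v, M.R w v ∧ v ∈ e 0}) := by
  refine ⟨⟨Bool, fun q => match q with
    | true => .mod true false
    | false => .var 0, fun _ => 0, true⟩, fun _ => le_rfl, ?_⟩
  intro M e b w h
  by_cases hb : b = true
  · obtain ⟨v, hv, hv'⟩ : ∃ v, M.R w v ∧ v ∈ e 0 := h.2 hb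
    exact wins_own _ hb.symm (false, v) ⟨rfl, hv⟩ (wins_var (x := 0) rfl ⟨fun _ => hb, fun _ => hv'⟩)
  · have hw : ¬ ∃ v, M.R w v ∧ v ∈ e 0 := fun h' => hb (h.1 h')
    refine wins_opp _ (fun h' => hb h'.symm) ?_
    rintro ⟨r, v⟩ ⟨h1, h2⟩
    have h1' : r = false := h1
    subst h1'
    exact wins_var (x := 0) rfl ⟨fun h' => absurd ⟨v, h2, h'⟩ hw, fun h' => absurd h' hb⟩

theorem rep_box : Rep 0 (fun M e => {w | ∀ v, M.R w v → v ∈ e 0}) := by
  refine ⟨⟨Bool, fun q => match q with
    | true => .mod false false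
    | false => .var 0, fun _ => 0, true⟩, fun _ => le_rfl, ?_⟩
  intro M e b w h
  by_cases hb : b = true
  · have hw : ∀ v, M.R w v → v ∈ e 0 := h.2 hb
    refine wins_opp _ (fun h' => ?_) ?_
    · have : false = b := h'
      rw [hb] at this
      exact Bool.false_ne_true this
    · rintro ⟨r, v⟩ ⟨h1, h2⟩
      have h1' : r = false := h1
      subst h1'
      exact wins_var (x := 0) rfl ⟨fun _ => hb, fun _ => hw v h2⟩
  · have hw : ¬ ∀ v, M.R w v → v ∈ e 0 := fun h' => hb (h.1 h')
    push Not at hw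
    obtain ⟨v, hv, hv'⟩ := hw
    have hb' : false = b := by
      cases b
      · rfl
      · exact absurd rfl hb
    exact wins_own _ hb' (false, v) ⟨rfl, hv⟩
      (wins_var (x := 0) rfl ⟨fun h' => absurd h' hv', fun h' => absurd h' hb⟩)

/-! ### Simultaneous substitution -/

/-- Transition conditions of the composite automaton, first component. -/
def liftL {Q : Type} (B : ℕ → Aut) : Tr Q → Tr (Q ⊕ (Σ x, (B x).Q))
  | .const b => .const b
  | .lit b p => .lit b p
  | .var x => .eps (Sum.inr ⟨x, (B x).q0⟩)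
  | .bin b q r => .bin b (Sum.inl q) (Sum.inl r)
  | .mod b q => .mod b (Sum.inl q)
  | .eps q => .eps (Sum.inl q)

theorem liftL_eq {Q : Type} (B : ℕ → Aut) (d : Tr Q) (h : ∀ x, d ≠ .var x) :
    liftL B d = d.map Sum.inl := by
  cases d with
  | const b => rfl
  | lit b p => rfl
  | var x => exact absurd rfl (h x)
  | bin b q r => rfl
  | mod b q => rfl
  | eps q => rfl

theorem ownOf_congr {Q : Type} (M : Kripke) (e e' : ℕ → Set M.W) (d : Tr Q) (w : M.W)
    (h : ∀ x, d = .var x → e x = e' x) : ownOf M e d w = ownOf M e' d w := by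
  cases d with
  | const b => rfl
  | lit b p => rfl
  | var x =>
    unfold ownOf
    exact decide_eq_decide.2 (by rw [h x rfl])
  | bin b q r => rfl
  | mod b q => rfl
  | eps q => rfl

def compAut (A : Aut) (B : ℕ → Aut) : Aut where
  Q := A.Q ⊕ (Σ x, (B x).Q)
  δ q := match q with
    | Sum.inl q => liftL B (A.δ q)
    | Sum.inr y => ((B y.1).δ y.2).map (fun q => Sum.inr ⟨y.1, q⟩)
  Ω q := match q with
    | Sum.inl q => A.Ω q
    | Sum.inr y => (B y.1).Ω y.2
  q0 := Sum.inl A.q0

theorem rep_comp {N : ℕ} {F : PFun} {G : ℕ → PFun} (hF : Rep N F) (hG : ∀ x, Rep N (G x)) :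
    Rep N (fun M e => F M (fun x => G x M e)) := by
  obtain ⟨A, hA1, hA2⟩ := hF
  choose B hB1 hB2 using hG
  refine ⟨compAut A B, ?_, ?_⟩
  · rintro (q | ⟨x, q⟩)
    · exact hA1 q
    · exact hB1 x q
  intro M e b w h
  -- the second components
  have hR : ∀ x v, Holds b (G x M e) v →
      Wins b (game (compAut A B) M e) (Sum.inr ⟨x, (B x).q0⟩, v) := by
    intro x v hv
    have hem : ExitEmb (game (B x) M e) (game (compAut A B) M e) (fun _ => False)
        (fun p => (Sum.inr ⟨x, p.1⟩, p.2)) (fun p => (Sum.inr ⟨x, p.1⟩, p.2)) := by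
      refine ⟨fun p hp => hp.elim, ?_, ?_, ?_, fun p hp => hp.elim⟩
      · rintro ⟨q, u⟩ _
        exact ownOf_map _ M e _ u
      · rintro ⟨q, u⟩ _
        rfl
      · rintro ⟨q, u⟩ _ p'
        exact mvRel_map _ M _ u p'
    exact hem.wins (fun p hp => hp.elim) _ (hB2 x M e b v hv)
  -- the first component
  let Ex : (game A M (fun x => G x M e)).P → Prop := fun p => ∃ x, A.δ p.1 = .var x
  let t : (game A M (fun x => G x M e)).P → (game (compAut A B) M e).P := fun p =>
    match A.δ p.1 with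
    | .var x => (Sum.inr ⟨x, (B x).q0⟩, p.2)
    | _ => (Sum.inl p.1, p.2)
  have hem : ExitEmb (game A M (fun x => G x M e)) (game (compAut A B) M e) Ex t
      (fun p => (Sum.inl p.1, p.2)) := by
    refine ⟨?_, ?_, ?_, ?_, ?_⟩
    · rintro ⟨q, u⟩ ⟨x, hx⟩ p' hp'
      have hx' : A.δ q = .var x := hx
      have hp'' : mvRel M (A.δ q) u p' := hp'
      rw [hx'] at hp''
      exact hp''
    · rintro ⟨q, u⟩ hn
      have hn' : ∀ x, A.δ q ≠ .var x := fun x hx => hn ⟨x, hx⟩
      show ownOf M e (liftL B (A.δ q)) u = ownOf M _ (A.δ q) u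
      rw [liftL_eq B _ hn', ownOf_map]
      exact ownOf_congr M _ _ _ _ (fun x hx => absurd hx (hn' x))
    · rintro ⟨q, u⟩ hn
      rfl
    · rintro ⟨q, u⟩ hn p'
      have hn' : ∀ x, A.δ q ≠ .var x := fun x hx => hn ⟨x, hx⟩
      show mvRel M (liftL B (A.δ q)) u p' ↔ ∃ r, mvRel M (A.δ q) u r ∧ p' = (Sum.inl r.1, r.2)
      rw [liftL_eq B _ hn']
      exact mvRel_map _ M _ u p'
    · rintro ⟨q, u⟩ ⟨x, hx⟩ p'
      have hx' : A.δ q = .var x := hx
      show mvRel M (liftL B (A.δ q)) u p' ↔ p' = t (q, u)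
      have ht : t (q, u) = (Sum.inr ⟨x, (B x).q0⟩, u) := by
        simp only [t, hx']
        rfl
      rw [ht, hx']
      constructor
      · rintro ⟨h1, h2⟩
        exact Prod.ext h1 h2
      · rintro rfl
        exact ⟨rfl, rfl⟩
  refine hem.wins ?_ _ (hA2 M _ b w h)
  rintro ⟨q, u⟩ ⟨x, hx⟩ hown
  have hx' : A.δ q = .var x := hx
  have ht : t (q, u) = (Sum.inr ⟨x, (B x).q0⟩, u) := by
    simp only [t, hx']
    rfl
  rw [ht]
  apply hR
  have hown' : ownOf M (fun x => G x M e) (A.δ q) u ≠ b := hown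
  rw [hx'] at hown'
  exact (own_var_ne M _ x u).1 hown'

/-! ### Fixpoints -/

def liftF {Q : Type} (x : ℕ) : Tr Q → Tr (Option Q)
  | .const b => .const b
  | .lit b p => .lit b p
  | .var y => if y = x then .eps none else .var y
  | .bin b q r => .bin b (some q) (some r)
  | .mod b q => .mod b (some q)
  | .eps q => .eps (some q)

theorem liftF_eq {Q : Type} (x : ℕ) (d : Tr Q) (h : d ≠ .var x) :
    liftF x d = d.map some := by
  cases d with
  | const b => rfl
  | lit b p => rfl
  | var y =>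
    have : y ≠ x := fun hy => h (hy ▸ rfl)
    simp [liftF, Tr.map, this]
  | bin b q r => rfl
  | mod b q => rfl
  | eps q => rfl

def fixAut (A : Aut) (x k : ℕ) : Aut where
  Q := Option A.Q
  δ q := match q with
    | none => .eps (some A.q0)
    | some q => liftF x (A.δ q)
  Ω q := match q with
    | none => k
    | some q => A.Ω q
  q0 := none

theorem fixAut_emb (A : Aut) (x k : ℕ) (M : Kripke) (e : ℕ → Set M.W) (S : Set M.W) :
    ExitEmb (game A M (Function.update e x S)) (game (fixAut A x k) M e)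
      (fun p => A.δ p.1 = .var x) (fun p => (none, p.2)) (fun p => (some p.1, p.2)) := by
  refine ⟨?_, ?_, ?_, ?_, ?_⟩
  · rintro ⟨q, u⟩ hx p' hp'
    have hx' : A.δ q = .var x := hx
    have hp'' : mvRel M (A.δ q) u p' := hp'
    rw [hx'] at hp''
    exact hp''
  · rintro ⟨q, u⟩ hn
    have hn' : A.δ q ≠ .var x := hn
    show ownOf M e (liftF x (A.δ q)) u = ownOf M _ (A.δ q) u
    rw [liftF_eq x _ hn', ownOf_map]
    apply ownOf_congr
    intro y hy
    have : y ≠ x := fun h => hn' (h ▸ hy)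
    simp [this]
  · rintro ⟨q, u⟩ hn
    rfl
  · rintro ⟨q, u⟩ hn p'
    have hn' : A.δ q ≠ .var x := hn
    show mvRel M (liftF x (A.δ q)) u p' ↔ ∃ r, mvRel M (A.δ q) u r ∧ p' = (some r.1, r.2)
    rw [liftF_eq x _ hn']
    exact mvRel_map _ M _ u p'
  · rintro ⟨q, u⟩ hx p'
    have hx' : A.δ q = .var x := hx
    show mvRel M (liftF x (A.δ q)) u p' ↔ p' = (none, u)
    rw [hx']
    simp only [liftF, if_true, mvRel]
    constructor
    · rintro ⟨h1, h2⟩
      exact Prod.ext h1 h2
    · rintro rfl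
      exact ⟨rfl, rfl⟩

theorem fixAut_start (A : Aut) (x k : ℕ) (M : Kripke) (e : ℕ → Set M.W) (w : M.W)
    (p' : (game (fixAut A x k) M e).P) :
    (game (fixAut A x k) M e).mv (none, w) p' ↔ p' = (some A.q0, w) := by
  constructor
  · rintro ⟨h1, h2⟩
    exact Prod.ext h1 h2
  · rintro rfl
    exact ⟨rfl, rfl⟩

/-- The inductive player. -/
theorem fix_ind {A : Aut} {x k : ℕ} {M : Kripke} {e : ℕ → Set M.W} {b : Bool} (S : Set M.W)
    (hS : ∀ v, Holds b S v → Wins b (game (fixAut A x k) M e) (none, v)) (w : M.W)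
    (hw : Wins b (game A M (Function.update e x S)) (A.q0, w)) :
    Wins b (game (fixAut A x k) M e) (none, w) := by
  apply wins_forced _ _ (fixAut_start A x k M e w)
  refine (fixAut_emb A x k M e S).wins ?_ _ hw
  rintro ⟨q, u⟩ hx hown
  have hx' : A.δ q = .var x := hx
  apply hS
  have hown' : ownOf M (Function.update e x S) (A.δ q) u ≠ b := hown
  rw [hx'] at hown'
  have := (own_var_ne M _ x u).1 hown'
  simpa using this

/-- The coinductive player. -/
theorem fix_coind {A : Aut} {x k : ℕ} (hA : ∀ q, A.Ω q ≤ k) {M : Kripke} {e : ℕ → Set M.W}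
    {b : Bool} (hk : k % 2 = 0 ↔ b = true) (T : Set M.W)
    (hT : ∀ v, Holds b T v → Wins b (game A M (Function.update e x T)) (A.q0, v)) (w : M.W)
    (hw : Holds b T w) : Wins b (game (fixAut A x k) M e) (none, w) := by
  refine (fixAut_emb A x k M e T).wins_coind k hk ?_ {p | ∃ v, p = (none, v) ∧ Holds b T v} ?_
    (fun p => (A.q0, p.2)) ?_ ?_ ?_ _ ⟨w, rfl, hw⟩
  · rintro ⟨_ | q, u⟩
    · exact le_rfl
    · exact hA q
  · rintro _ ⟨v, rfl, _⟩
    rfl
  · rintro _ ⟨v, rfl, _⟩ p'
    exact fixAut_start A x k M e v p'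
  · rintro _ ⟨v, rfl, hv⟩
    exact hT v hv
  · rintro ⟨q, u⟩ hx hown
    have hx' : A.δ q = .var x := hx
    refine ⟨u, rfl, ?_⟩
    have hown' : ownOf M (Function.update e x T) (A.δ q) u ≠ b := hown
    rw [hx'] at hown'
    have := (own_var_ne M _ x u).1 hown'
    simpa using this

theorem rep_mu {φ : Fm} {k : ℕ} (x : ℕ) (hk : k % 2 = 1) (h : Rep k (fun M e => φ.sem M e)) :
    Rep k (fun M e => (mu x φ).sem M e) := by
  obtain ⟨A, hA1, hA2⟩ := h
  refine ⟨fixAut A x k, ?_, ?_⟩
  · rintro (_ | q)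
    · exact le_rfl
    · exact hA1 q
  intro M e b w h
  cases b with
  | true =>
    have hw : w ∈ (mu x φ).sem M e := h.2 rfl
    have hsub : (mu x φ).sem M e ⊆ {v | Wins true (game (fixAut A x k) M e) (none, v)} := by
      apply Set.sInter_subset_of_mem
      show φ.sem M (Function.update e x {v | Wins true (game (fixAut A x k) M e) (none, v)}) ⊆ _
      intro v hv
      refine fix_ind {v | Wins true (game (fixAut A x k) M e) (none, v)} ?_ v ?_
      · intro u hu
        exact hu.2 rfl
      · exact hA2 M _ true v ⟨fun _ => rfl, fun _ => hv⟩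
    exact hsub hw
  | false =>
    refine fix_coind hA1 (by simp [hk]) ((mu x φ).sem M e) ?_ w h
    intro v hv
    refine hA2 M _ false v ?_
    show Holds false (φ.sem M (Function.update e x ((mu x φ).sem M e))) v
    rw [sem_mu_eq]
    exact hv

theorem rep_nu {φ : Fm} {k : ℕ} (x : ℕ) (hk : k % 2 = 0) (h : Rep k (fun M e => φ.sem M e)) :
    Rep k (fun M e => (nu x φ).sem M e) := by
  obtain ⟨A, hA1, hA2⟩ := h
  refine ⟨fixAut A x k, ?_, ?_⟩
  · rintro (_ | q)
    · exact le_rfl
    · exact hA1 q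
  intro M e b w h
  cases b with
  | false =>
    have hw : w ∉ (nu x φ).sem M e := fun h' => Bool.false_ne_true (h.1 h')
    by_contra hcon
    apply hw
    have hsub : {v | ¬ Wins false (game (fixAut A x k) M e) (none, v)} ⊆ (nu x φ).sem M e := by
      apply Set.subset_sUnion_of_mem
      show {v | ¬ Wins false (game (fixAut A x k) M e) (none, v)} ⊆
        φ.sem M (Function.update e x {v | ¬ Wins false (game (fixAut A x k) M e) (none, v)})
      intro v hv
      by_contra hv'
      apply hv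
      refine fix_ind {v | ¬ Wins false (game (fixAut A x k) M e) (none, v)} ?_ v ?_
      · intro u hu
        by_contra hu'
        exact Bool.false_ne_true (hu.1 hu')
      · exact hA2 M _ false v ⟨fun h' => absurd h' hv', fun h' => absurd h' Bool.false_ne_true⟩
    exact hsub hcon
  | true =>
    refine fix_coind hA1 (by simp [hk]) ((nu x φ).sem M e) ?_ w h
    intro v hv
    refine hA2 M _ true v ?_
    show Holds true (φ.sem M (Function.update e x ((nu x φ).sem M e))) v
    rw [sem_nu_eq]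
    exact hv

/-! ### The levels of the hierarchy -/

theorem rep_and' {N : ℕ} {φ ψ : Fm} (h1 : Rep N (fun M e => φ.sem M e))
    (h2 : Rep N (fun M e => ψ.sem M e)) : Rep N (fun M e => (Fm.and φ ψ).sem M e) := by
  have := rep_comp (N := N) (G := fun x => if x = 0 then (fun M e => φ.sem M e)
    else (fun M e => ψ.sem M e)) (rep_and.mono (Nat.zero_le N)) (by
      intro x
      by_cases hx : x = 0
      · simpa [hx] using h1
      · simpa [hx] using h2)
  simpa [sem] using this

theorem rep_or' {N : ℕ} {φ ψ : Fm} (h1 : Rep N (fun M e => φ.sem M e))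
    (h2 : Rep N (fun M e => ψ.sem M e)) : Rep N (fun M e => (Fm.or φ ψ).sem M e) := by
  have := rep_comp (N := N) (G := fun x => if x = 0 then (fun M e => φ.sem M e)
    else (fun M e => ψ.sem M e)) (rep_or.mono (Nat.zero_le N)) (by
      intro x
      by_cases hx : x = 0
      · simpa [hx] using h1
      · simpa [hx] using h2)
  simpa [sem] using this

theorem rep_dia' {N : ℕ} {φ : Fm} (h1 : Rep N (fun M e => φ.sem M e)) :
    Rep N (fun M e => (Fm.dia φ).sem M e) :=
  rep_comp (N := N) (G := fun _ M e => φ.sem M e) (rep_dia.mono (Nat.zero_le N)) (fun _ => h1)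

theorem rep_box' {N : ℕ} {φ : Fm} (h1 : Rep N (fun M e => φ.sem M e)) :
    Rep N (fun M e => (Fm.box φ).sem M e) :=
  rep_comp (N := N) (G := fun _ M e => φ.sem M e) (rep_box.mono (Nat.zero_le N)) (fun _ => h1)

theorem rep_subst' {N : ℕ} {φ ψ : Fm} (x : ℕ) (hc : NoCapture x ψ φ)
    (h1 : Rep N (fun M e => φ.sem M e)) (h2 : Rep N (fun M e => ψ.sem M e)) :
    Rep N (fun M e => (subst x ψ φ).sem M e) := by
  have := rep_comp (N := N) (G := fun y => if y = x then (fun M e => ψ.sem M e)
    else (fun M e => e y)) h1 (by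
      intro y
      by_cases hy : y = x
      · simpa [hy] using h2
      · simpa [hy] using (rep_var y).mono (Nat.zero_le N))
  convert this using 3 with M e
  rw [sem_subst M x ψ φ hc]
  congr 1
  funext y
  by_cases hy : y = x
  · subst hy; simp
  · simp [hy]

theorem rep_fixFree (φ : Fm) (h : φ.FixFree) : Rep 0 (fun M e => φ.sem M e) := by
  induction φ with
  | top => exact rep_top
  | bot => exact rep_bot
  | pos p =>
    have := rep_lit true p
    simpa [sem] using this
  | neg p =>
    have := rep_lit false p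
    convert this using 3 with M e
    ext w
    simp [sem]
  | var x => exact rep_var x
  | and φ ψ ih1 ih2 => exact rep_and' (ih1 h.1) (ih2 h.2)
  | or φ ψ ih1 ih2 => exact rep_or' (ih1 h.1) (ih2 h.2)
  | dia φ ih => exact rep_dia' (ih h)
  | box φ ih => exact rep_box' (ih h)
  | mu x φ ih => exact h.elim
  | nu x φ ih => exact h.elim

theorem rep_muClosure {N : ℕ} (hN : N % 2 = 1) (B : Set Fm)
    (hB : ∀ φ ∈ B, Rep N (fun M e => φ.sem M e)) (φ : Fm) (h : MuClosure B φ) :
    Rep N (fun M e => φ.sem M e) := by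
  induction h with
  | base φ h => exact hB φ h
  | and φ ψ _ _ ih1 ih2 => exact rep_and' ih1 ih2
  | or φ ψ _ _ ih1 ih2 => exact rep_or' ih1 ih2
  | dia φ _ ih => exact rep_dia' ih
  | box φ _ ih => exact rep_box' ih
  | mu x φ _ ih => exact rep_mu x hN ih
  | subst x φ ψ _ _ hc ih1 ih2 => exact rep_subst' x hc ih1 ih2

theorem rep_nuClosure {N : ℕ} (hN : N % 2 = 0) (B : Set Fm)
    (hB : ∀ φ ∈ B, Rep N (fun M e => φ.sem M e)) (φ : Fm) (h : NuClosure B φ) :
    Rep N (fun M e => φ.sem M e) := by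
  induction h with
  | base φ h => exact hB φ h
  | and φ ψ _ _ ih1 ih2 => exact rep_and' ih1 ih2
  | or φ ψ _ _ ih1 ih2 => exact rep_or' ih1 ih2
  | dia φ _ ih => exact rep_dia' ih
  | box φ _ ih => exact rep_box' ih
  | nu x φ _ ih => exact rep_nu x hN ih
  | subst x φ ψ _ _ hc ih1 ih2 => exact rep_subst' x hc ih1 ih2

theorem rep_level (n : ℕ) : (∀ φ ∈ SigmaLevel n, Rep (2 * n + 1) (fun M e => φ.sem M e)) ∧
    (∀ φ ∈ PiLevel n, Rep (2 * n) (fun M e => φ.sem M e)) := by
  induction n with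
  | zero =>
    exact ⟨fun φ h => (rep_fixFree φ h).mono (Nat.zero_le _), fun φ h => rep_fixFree φ h⟩
  | succ n ih =>
    have hB : ∀ φ ∈ (level n).1 ∪ (level n).2, Rep (2 * n + 1) (fun M e => φ.sem M e) := by
      rintro φ (h | h)
      · exact ih.1 φ h
      · exact (ih.2 φ h).mono (Nat.le_succ _)
    constructor
    · intro φ h
      exact rep_muClosure (by omega) _ (fun φ h => (hB φ h).mono (by omega)) φ h
    · intro φ h
      exact rep_nuClosure (by omega) _ (fun φ h => (hB φ h).mono (by omega)) φ h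

end Pool.Agent.MuCraig
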