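import Pool.Agent.MuCraig.Defs

/-!
# Basic facts on the semantics of the modal mu-calculus
-/

namespace Pool.Agent.MuCraig

open Fm

theorem sem_mono (M : Kripke) (φ : Fm) : ∀ (e e' : ℕ → Set M.W), (∀ x, e x ⊆ e' x) →
    φ.sem M e ⊆ φ.sem M e' := by
  induction φ with
  | top => intro e e' h; exact subset_rfl
  | bot => intro e e' h; exact subset_rfl
  | pos p => intro e e' h; exact subset_rfl
  | neg p => intro e e' h; exact subset_rfl
  | var x => intro e e' h; exact h x
  | and φ ψ ih1 ih2 => intro e e' h; exact Set.inter_subset_inter (ih1 e e' h) (ih2 e e' h)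
  | or φ ψ ih1 ih2 => intro e e' h; exact Set.union_subset_union (ih1 e e' h) (ih2 e e' h)
  | dia φ ih =>
    rintro e e' h w ⟨v, hv, hv'⟩
    exact ⟨v, hv, ih e e' h hv'⟩
  | box φ ih =>
    intro e e' h w hw v hv
    exact ih e e' h (hw v hv)
  | mu x φ ih =>
    intro e e' h
    apply Set.sInter_subset_sInter
    intro S hS
    refine (ih _ _ ?_).trans hS
    intro y
    by_cases hy : y = x
    · subst hy; simp
    · simp [hy, h]
  | nu x φ ih =>
    intro e e' h
    apply Set.sUnion_subset_sUnion
    intro S hS
    refine Set.Subset.trans hS (ih _ _ ?_)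
    intro y
    by_cases hy : y = x
    · subst hy; simp
    · simp [hy, h]

theorem sem_mono_update (M : Kripke) (φ : Fm) (e : ℕ → Set M.W) (x : ℕ) {S T : Set M.W}
    (h : S ⊆ T) : φ.sem M (Function.update e x S) ⊆ φ.sem M (Function.update e x T) := by
  apply sem_mono
  intro y
  by_cases hy : y = x
  · subst hy; simpa using h
  · simp [hy]

/-- Unfolding of the least fixpoint. -/
theorem sem_mu_eq (M : Kripke) (x : ℕ) (φ : Fm) (e : ℕ → Set M.W) :
    φ.sem M (Function.update e x ((mu x φ).sem M e)) = (mu x φ).sem M e := by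
  have h1 : φ.sem M (Function.update e x ((mu x φ).sem M e)) ⊆ (mu x φ).sem M e := by
    apply Set.subset_sInter
    intro S hS
    refine Set.Subset.trans (sem_mono_update M φ e x ?_) hS
    exact Set.sInter_subset_of_mem hS
  apply Set.Subset.antisymm h1
  apply Set.sInter_subset_of_mem
  exact sem_mono_update M φ e x h1

/-- Unfolding of the greatest fixpoint. -/
theorem sem_nu_eq (M : Kripke) (x : ℕ) (φ : Fm) (e : ℕ → Set M.W) :
    φ.sem M (Function.update e x ((nu x φ).sem M e)) = (nu x φ).sem M e := by
  have h1 : (nu x φ).sem M e ⊆ φ.sem M (Function.update e x ((nu x φ).sem M e)) := by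
    apply Set.sUnion_subset
    intro S hS
    refine Set.Subset.trans hS (sem_mono_update M φ e x ?_)
    exact Set.subset_sUnion_of_mem hS
  refine Set.Subset.antisymm ?_ h1
  apply Set.subset_sUnion_of_mem
  exact sem_mono_update M φ e x h1

theorem sem_congr (M : Kripke) (φ : Fm) : ∀ (e e' : ℕ → Set M.W), (∀ x ∈ φ.FV, e x = e' x) →
    φ.sem M e = φ.sem M e' := by
  induction φ with
  | top => intro e e' h; rfl
  | bot => intro e e' h; rfl
  | pos p => intro e e' h; rfl
  | neg p => intro e e' h; rfl
  | var x => intro e e' h; exact h x rfl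
  | and φ ψ ih1 ih2 =>
    intro e e' h
    simp only [sem]
    rw [ih1 e e' (fun x hx => h x (Or.inl hx)), ih2 e e' (fun x hx => h x (Or.inr hx))]
  | or φ ψ ih1 ih2 =>
    intro e e' h
    simp only [sem]
    rw [ih1 e e' (fun x hx => h x (Or.inl hx)), ih2 e e' (fun x hx => h x (Or.inr hx))]
  | dia φ ih =>
    intro e e' h
    simp only [sem]
    rw [ih e e' h]
  | box φ ih =>
    intro e e' h
    simp only [sem]
    rw [ih e e' h]
  | mu x φ ih =>
    intro e e' h
    have : ∀ S, φ.sem M (Function.update e x S) = φ.sem M (Function.update e' x S) := by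
      intro S
      apply ih
      intro y hy
      by_cases hyx : y = x
      · subst hyx; simp
      · simp only [ne_eq, hyx, not_false_eq_true, Function.update_of_ne]
        exact h y ⟨hy, hyx⟩
    simp only [sem, this]
  | nu x φ ih =>
    intro e e' h
    have : ∀ S, φ.sem M (Function.update e x S) = φ.sem M (Function.update e' x S) := by
      intro S
      apply ih
      intro y hy
      by_cases hyx : y = x
      · subst hyx; simp
      · simp only [ne_eq, hyx, not_false_eq_true, Function.update_of_ne]
        exact h y ⟨hy, hyx⟩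
    simp only [sem, this]

theorem sem_subst (M : Kripke) (x : ℕ) (ψ φ : Fm) : NoCapture x ψ φ → ∀ e : ℕ → Set M.W,
    (subst x ψ φ).sem M e = φ.sem M (Function.update e x (ψ.sem M e)) := by
  induction φ with
  | top => intro _ e; rfl
  | bot => intro _ e; rfl
  | pos p => intro _ e; rfl
  | neg p => intro _ e; rfl
  | var y =>
    intro _ e
    by_cases hy : y = x
    · subst hy; simp [subst, sem]
    · simp [subst, sem, hy]
  | and φ χ ih1 ih2 =>
    rintro ⟨h1, h2⟩ e
    simp only [subst, sem]
    rw [ih1 h1, ih2 h2]
  | or φ χ ih1 ih2 =>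
    rintro ⟨h1, h2⟩ e
    simp only [subst, sem]
    rw [ih1 h1, ih2 h2]
  | dia φ ih =>
    intro h e
    simp only [subst, sem]
    rw [ih h]
  | box φ ih =>
    intro h e
    simp only [subst, sem]
    rw [ih h]
  | mu y φ ih =>
    intro h e
    by_cases hx : x ∈ (mu y φ).FV
    · obtain ⟨h1, h2⟩ := h hx
      have hyx : y ≠ x := fun hh => hx.2 hh.symm
      have key : ∀ S, (subst x ψ φ).sem M (Function.update e y S) =
          φ.sem M (Function.update (Function.update e x (ψ.sem M e)) y S) := by
        intro S
        rw [ih h2]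
        have h3 : ψ.sem M (Function.update e y S) = ψ.sem M e := by
          apply sem_congr
          intro z hz
          have : z ≠ y := fun hh => h1 (hh ▸ hz)
          simp [this]
        rw [h3, Function.update_comm hyx]
      simp only [subst, hyx, if_false, sem, key]
    · have h3 : (mu y φ).sem M (Function.update e x (ψ.sem M e)) = (mu y φ).sem M e := by
        apply sem_congr
        intro z hz
        have : z ≠ x := fun hh => hx (hh ▸ hz)
        simp [this]
      rw [h3]
      by_cases hyx : y = x
      · simp only [subst, hyx, if_true]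
      · simp only [subst, hyx, if_false, sem]
        have hxφ : x ∉ φ.FV := fun hh => hx ⟨hh, fun h4 => hyx h4.symm⟩
        have key : ∀ S, (subst x ψ φ).sem M (Function.update e y S) =
          φ.sem M (Function.update e y S) := by
          intro S
          have h5 : NoCapture x ψ φ := by
            clear ih h hx h3
            induction φ with
            | top => trivial
            | bot => trivial
            | pos p => trivial
            | neg p => trivial
            | var z => trivial
            | and φ χ ih1 ih2 => exact ⟨ih1 (fun h => hxφ (Or.inl h)), ih2 (fun h => hxφ (Or.inr h))⟩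
            | or φ χ ih1 ih2 => exact ⟨ih1 (fun h => hxφ (Or.inl h)), ih2 (fun h => hxφ (Or.inr h))⟩
            | dia φ ih => exact ih hxφ
            | box φ ih => exact ih hxφ
            | mu z φ ih => intro h; exact absurd h hxφ
            | nu z φ ih => intro h; exact absurd h hxφ
          rw [ih h5]
          apply sem_congr
          intro z hz
          have : z ≠ x := fun hh => hxφ (hh ▸ hz)
          simp [this]
        simp only [key]
  | nu y φ ih =>
    intro h e
    by_cases hx : x ∈ (nu y φ).FV
    · obtain ⟨h1, h2⟩ := h hx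
      have hyx : y ≠ x := fun hh => hx.2 hh.symm
      have key : ∀ S, (subst x ψ φ).sem M (Function.update e y S) =
          φ.sem M (Function.update (Function.update e x (ψ.sem M e)) y S) := by
        intro S
        rw [ih h2]
        have h3 : ψ.sem M (Function.update e y S) = ψ.sem M e := by
          apply sem_congr
          intro z hz
          have : z ≠ y := fun hh => h1 (hh ▸ hz)
          simp [this]
        rw [h3, Function.update_comm hyx]
      simp only [subst, hyx, if_false, sem, key]
    · have h3 : (nu y φ).sem M (Function.update e x (ψ.sem M e)) = (nu y φ).sem M e := by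
        apply sem_congr
        intro z hz
        have : z ≠ x := fun hh => hx (hh ▸ hz)
        simp [this]
      rw [h3]
      by_cases hyx : y = x
      · simp only [subst, hyx, if_true]
      · simp only [subst, hyx, if_false, sem]
        have hxφ : x ∉ φ.FV := fun hh => hx ⟨hh, fun h4 => hyx h4.symm⟩
        have key : ∀ S, (subst x ψ φ).sem M (Function.update e y S) =
          φ.sem M (Function.update e y S) := by
          intro S
          have h5 : NoCapture x ψ φ := by
            clear ih h hx h3
            induction φ with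
            | top => trivial
            | bot => trivial
            | pos p => trivial
            | neg p => trivial
            | var z => trivial
            | and φ χ ih1 ih2 => exact ⟨ih1 (fun h => hxφ (Or.inl h)), ih2 (fun h => hxφ (Or.inr h))⟩
            | or φ χ ih1 ih2 => exact ⟨ih1 (fun h => hxφ (Or.inl h)), ih2 (fun h => hxφ (Or.inr h))⟩
            | dia φ ih => exact ih hxφ
            | box φ ih => exact ih hxφ
            | mu z φ ih => intro h; exact absurd h hxφ
            | nu z φ ih => intro h; exact absurd h hxφ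
          rw [ih h5]
          apply sem_congr
          intro z hz
          have : z ≠ x := fun hh => hxφ (hh ▸ hz)
          simp [this]
        simp only [key]

/-! ### Dual formulas -/

namespace Fm

/-- The dual formula: the negation in negation normal form, with the fixpoint variables kept. -/
def dual : Fm → Fm
  | top => bot
  | bot => top
  | pos p => neg p
  | neg p => pos p
  | var x => var x
  | and φ ψ => or φ.dual ψ.dual
  | or φ ψ => and φ.dual ψ.dual
  | dia φ => box φ.dual
  | box φ => dia φ.dual
  | mu x φ => nu x φ.dual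
  | nu x φ => mu x φ.dual

end Fm

theorem dual_dual (φ : Fm) : φ.dual.dual = φ := by
  induction φ <;> simp_all [Fm.dual]

theorem FV_dual (φ : Fm) : φ.dual.FV = φ.FV := by
  induction φ <;> simp_all [Fm.dual, FV]

theorem letters_dual (φ : Fm) : φ.dual.letters = φ.letters := by
  induction φ <;> simp_all [Fm.dual, letters]

theorem fixFree_dual (φ : Fm) (h : φ.FixFree) : φ.dual.FixFree := by
  induction φ <;> simp_all [Fm.dual, FixFree]

theorem dual_subst (x : ℕ) (ψ φ : Fm) : (subst x ψ φ).dual = subst x ψ.dual φ.dual := by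
  induction φ with
  | top => rfl
  | bot => rfl
  | pos p => rfl
  | neg p => rfl
  | var y => by_cases hy : y = x <;> simp [subst, Fm.dual, hy]
  | and φ χ ih1 ih2 => simp [subst, Fm.dual, ih1, ih2]
  | or φ χ ih1 ih2 => simp [subst, Fm.dual, ih1, ih2]
  | dia φ ih => simp [subst, Fm.dual, ih]
  | box φ ih => simp [subst, Fm.dual, ih]
  | mu y φ ih => by_cases hy : y = x <;> simp [subst, Fm.dual, hy, ih]
  | nu y φ ih => by_cases hy : y = x <;> simp [subst, Fm.dual, hy, ih]

theorem noCapture_dual (x : ℕ) (ψ φ : Fm) (h : NoCapture x ψ φ) :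
    NoCapture x ψ.dual φ.dual := by
  induction φ with
  | top => trivial
  | bot => trivial
  | pos p => trivial
  | neg p => trivial
  | var y => trivial
  | and φ χ ih1 ih2 => exact ⟨ih1 h.1, ih2 h.2⟩
  | or φ χ ih1 ih2 => exact ⟨ih1 h.1, ih2 h.2⟩
  | dia φ ih => exact ih h
  | box φ ih => exact ih h
  | mu y φ ih =>
    intro hx
    have hx' : x ∈ (mu y φ).FV := by
      rw [← FV_dual (mu y φ)]; exact hx
    obtain ⟨h1, h2⟩ := h hx'
    exact ⟨by rw [FV_dual]; exact h1, ih h2⟩
  | nu y φ ih =>
    intro hx
    have hx' : x ∈ (nu y φ).FV := by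
      rw [← FV_dual (nu y φ)]; exact hx
    obtain ⟨h1, h2⟩ := h hx'
    exact ⟨by rw [FV_dual]; exact h1, ih h2⟩

theorem dual_muClosure (B B' : Set Fm) (hB : ∀ φ ∈ B, φ.dual ∈ B') (φ : Fm)
    (h : MuClosure B φ) : NuClosure B' φ.dual := by
  induction h with
  | base φ h => exact NuClosure.base _ (hB _ h)
  | and φ ψ _ _ ih1 ih2 => exact NuClosure.or _ _ ih1 ih2
  | or φ ψ _ _ ih1 ih2 => exact NuClosure.and _ _ ih1 ih2
  | dia φ _ ih => exact NuClosure.box _ ih
  | box φ _ ih => exact NuClosure.dia _ ih
  | mu x φ _ ih => exact NuClosure.nu _ _ ih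
  | subst x φ ψ _ _ hc ih1 ih2 =>
    rw [dual_subst]
    exact NuClosure.subst _ _ _ ih1 ih2 (noCapture_dual _ _ _ hc)

theorem dual_nuClosure (B B' : Set Fm) (hB : ∀ φ ∈ B, φ.dual ∈ B') (φ : Fm)
    (h : NuClosure B φ) : MuClosure B' φ.dual := by
  induction h with
  | base φ h => exact MuClosure.base _ (hB _ h)
  | and φ ψ _ _ ih1 ih2 => exact MuClosure.or _ _ ih1 ih2
  | or φ ψ _ _ ih1 ih2 => exact MuClosure.and _ _ ih1 ih2
  | dia φ _ ih => exact MuClosure.box _ ih
  | box φ _ ih => exact MuClosure.dia _ ih
  | nu x φ _ ih => exact MuClosure.mu _ _ ih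
  | subst x φ ψ _ _ hc ih1 ih2 =>
    rw [dual_subst]
    exact MuClosure.subst _ _ _ ih1 ih2 (noCapture_dual _ _ _ hc)

theorem dual_level (n : ℕ) : (∀ φ ∈ SigmaLevel n, φ.dual ∈ PiLevel n) ∧
    (∀ φ ∈ PiLevel n, φ.dual ∈ SigmaLevel n) := by
  induction n with
  | zero => exact ⟨fun φ h => fixFree_dual φ h, fun φ h => fixFree_dual φ h⟩
  | succ n ih =>
    have hB : ∀ φ ∈ (level n).1 ∪ (level n).2, φ.dual ∈ (level n).1 ∪ (level n).2 := by
      rintro φ (h | h)
      · exact Or.inr (ih.1 φ h)
      · exact Or.inl (ih.2 φ h)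
    exact ⟨fun φ h => dual_muClosure _ _ hB φ h, fun φ h => dual_nuClosure _ _ hB φ h⟩

theorem sem_dual (M : Kripke) (φ : Fm) : ∀ e : ℕ → Set M.W,
    φ.dual.sem M (fun x => (e x)ᶜ) = (φ.sem M e)ᶜ := by
  induction φ with
  | top => intro e; simp [Fm.dual, sem]
  | bot => intro e; simp [Fm.dual, sem]
  | pos p => intro e; simp [Fm.dual, sem]
  | neg p => intro e; simp [Fm.dual, sem]
  | var x => intro e; simp [Fm.dual, sem]
  | and φ ψ ih1 ih2 => intro e; simp only [Fm.dual, sem, ih1, ih2, Set.compl_inter]
  | or φ ψ ih1 ih2 => intro e; simp only [Fm.dual, sem, ih1, ih2, Set.compl_union]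
  | dia φ ih =>
    intro e
    simp only [Fm.dual, sem, ih]
    ext w; simp
  | box φ ih =>
    intro e
    simp only [Fm.dual, sem, ih]
    ext w; simp
  | mu x φ ih =>
    intro e
    have key : ∀ S : Set M.W, φ.dual.sem M (Function.update (fun y => (e y)ᶜ) x Sᶜ) =
        (φ.sem M (Function.update e x S))ᶜ := by
      intro S
      rw [← ih]
      congr 1
      funext y
      by_cases hy : y = x
      · subst hy; simp
      · simp [hy]
    simp only [Fm.dual, sem]
    rw [Set.compl_sInter]
    congr 1
    ext S
    constructor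
    · intro hS
      refine ⟨Sᶜ, ?_, compl_compl S⟩
      have h2 := key Sᶜ
      rw [compl_compl] at h2
      have h3 : S ⊆ (φ.sem M (Function.update e x Sᶜ))ᶜ := by rw [← h2]; exact hS
      exact Set.subset_compl_comm.1 h3
    · rintro ⟨T, hT, rfl⟩
      show Tᶜ ⊆ _
      rw [key T]
      exact Set.compl_subset_compl.2 hT
  | nu x φ ih =>
    intro e
    have key : ∀ S : Set M.W, φ.dual.sem M (Function.update (fun y => (e y)ᶜ) x Sᶜ) =
        (φ.sem M (Function.update e x S))ᶜ := by
      intro S
      rw [← ih]
      congr 1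
      funext y
      by_cases hy : y = x
      · subst hy; simp
      · simp [hy]
    simp only [Fm.dual, sem]
    rw [Set.compl_sUnion]
    congr 1
    ext S
    constructor
    · intro hS
      refine ⟨Sᶜ, ?_, compl_compl S⟩
      have h2 := key Sᶜ
      rw [compl_compl] at h2
      have h3 : (φ.sem M (Function.update e x Sᶜ))ᶜ ⊆ S := by rw [← h2]; exact hS
      exact Set.compl_subset_comm.1 h3
    · rintro ⟨T, hT, rfl⟩
      show _ ⊆ Tᶜ
      rw [key T]
      exact Set.compl_subset_compl.2 hT

/-! ### Bounded morphisms -/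

/-- A bounded morphism with respect to the letters in `L`. -/
structure BddMor (L : Set ℕ) (K M : Kripke) (f : K.W → M.W) : Prop where
  forth : ∀ x y, K.R x y → M.R (f x) (f y)
  back : ∀ x v, M.R (f x) v → ∃ y, K.R x y ∧ f y = v
  val : ∀ p ∈ L, ∀ x, x ∈ K.V p ↔ f x ∈ M.V p

theorem sem_bddMor {L : Set ℕ} {K M : Kripke} {f : K.W → M.W} (h : BddMor L K M f) (φ : Fm)
    (hL : φ.letters ⊆ L) : ∀ e : ℕ → Set M.W,
    φ.sem K (fun x => f ⁻¹' (e x)) = f ⁻¹' (φ.sem M e) := by
  induction φ with
  | top => intro e; rfl
  | bot => intro e; rfl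
  | pos p =>
    intro e
    ext x
    exact h.val p (hL rfl) x
  | neg p =>
    intro e
    ext x
    exact not_congr (h.val p (hL rfl) x)
  | var x => intro e; rfl
  | and φ ψ ih1 ih2 =>
    intro e
    simp only [sem, ih1 (fun p hp => hL (Or.inl hp)) e, ih2 (fun p hp => hL (Or.inr hp)) e,
      Set.preimage_inter]
  | or φ ψ ih1 ih2 =>
    intro e
    simp only [sem, ih1 (fun p hp => hL (Or.inl hp)) e, ih2 (fun p hp => hL (Or.inr hp)) e,
      Set.preimage_union]
  | dia φ ih =>
    intro e
    simp only [sem, ih hL e]
    ext x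
    constructor
    · rintro ⟨y, h1, h2⟩
      exact ⟨f y, h.forth _ _ h1, h2⟩
    · rintro ⟨v, h1, h2⟩
      obtain ⟨y, hy, rfl⟩ := h.back x v h1
      exact ⟨y, hy, h2⟩
  | box φ ih =>
    intro e
    simp only [sem, ih hL e]
    ext x
    constructor
    · intro h1 v hv
      obtain ⟨y, hy, rfl⟩ := h.back x v hv
      exact h1 y hy
    · intro h1 y hy
      exact h1 (f y) (h.forth _ _ hy)
  | mu x φ ih =>
    intro e
    have key : ∀ S : Set M.W, φ.sem K (Function.update (fun y => f ⁻¹' (e y)) x (f ⁻¹' S)) =
        f ⁻¹' (φ.sem M (Function.update e x S)) := by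
      intro S
      rw [← ih hL]
      congr 1
      funext y
      by_cases hy : y = x
      · subst hy; simp
      · simp [hy]
    apply Set.Subset.antisymm
    · apply Set.sInter_subset_of_mem
      have : φ.sem K (Function.update (fun y => f ⁻¹' (e y)) x (f ⁻¹' ((mu x φ).sem M e))) ⊆
          f ⁻¹' ((mu x φ).sem M e) := by
        rw [key, sem_mu_eq]
      exact this
    · apply Set.subset_sInter
      intro T hT
      -- the set of points all of whose preimages lie in `T`
      have h1 : (mu x φ).sem M e ⊆ {m | ∀ n, f n = m → n ∈ T} := by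
        apply Set.sInter_subset_of_mem
        show φ.sem M (Function.update e x {m | ∀ n, f n = m → n ∈ T}) ⊆ _
        rintro m hm n rfl
        apply hT
        have h2 : n ∈ f ⁻¹' (φ.sem M (Function.update e x {m | ∀ n, f n = m → n ∈ T})) := hm
        rw [← key] at h2
        refine sem_mono_update K φ _ x ?_ h2
        intro y hy
        exact hy y rfl
      intro n hn
      exact h1 hn n rfl
  | nu x φ ih =>
    intro e
    have key : ∀ S : Set M.W, φ.sem K (Function.update (fun y => f ⁻¹' (e y)) x (f ⁻¹' S)) =
        f ⁻¹' (φ.sem M (Function.update e x S)) := by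
      intro S
      rw [← ih hL]
      congr 1
      funext y
      by_cases hy : y = x
      · subst hy; simp
      · simp [hy]
    apply Set.Subset.antisymm
    · apply Set.sUnion_subset
      intro T hT
      have h1 : f '' T ⊆ (nu x φ).sem M e := by
        apply Set.subset_sUnion_of_mem
        show f '' T ⊆ φ.sem M (Function.update e x (f '' T))
        rintro m ⟨n, hn, rfl⟩
        have h2 : n ∈ f ⁻¹' (φ.sem M (Function.update e x (f '' T))) := by
          rw [← key]
          refine sem_mono_update K φ _ x ?_ (hT hn)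
          intro y hy
          exact ⟨y, hy, rfl⟩
        exact h2
      intro n hn
      exact h1 ⟨n, hn, rfl⟩
    · apply Set.subset_sUnion_of_mem
      have : f ⁻¹' ((nu x φ).sem M e) ⊆
          φ.sem K (Function.update (fun y => f ⁻¹' (e y)) x (f ⁻¹' ((nu x φ).sem M e))) := by
        rw [key, sem_nu_eq]
      exact this

end Pool.Agent.MuCraig
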