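import Mathlib

/-!
# The modal mu-calculus, its alternation hierarchy and Craig interpolation: definitions
-/

namespace Pool.Agent.MuCraig

/-- Formulas of the modal mu-calculus in negation normal form.  Propositional letters and fixpoint
variables are named by natural numbers; they are two separate sorts of symbols.  Negation is applied
to propositional letters only, so every fixpoint variable occurs only positively. -/
inductive Fm : Type
  | top : Fm
  | bot : Fm
  /-- the propositional letter `p` -/
  | pos (p : ℕ) : Fm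
  /-- the negated propositional letter `p` -/
  | neg (p : ℕ) : Fm
  /-- the fixpoint variable `x` -/
  | var (x : ℕ) : Fm
  | and (φ ψ : Fm) : Fm
  | or (φ ψ : Fm) : Fm
  | dia (φ : Fm) : Fm
  | box (φ : Fm) : Fm
  /-- the least fixpoint operator binding `x` -/
  | mu (x : ℕ) (φ : Fm) : Fm
  /-- the greatest fixpoint operator binding `x` -/
  | nu (x : ℕ) (φ : Fm) : Fm

/-- Kripke models: a set of points, an accessibility relation and a valuation of the letters. -/
structure Kripke where
  W : Type
  R : W → W → Prop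
  V : ℕ → Set W

namespace Fm

/-- The set of points at which a formula is true, when the fixpoint variable `x` is interpreted by
the set `e x`. -/
def sem (M : Kripke) : Fm → (ℕ → Set M.W) → Set M.W
  | top, _ => Set.univ
  | bot, _ => ∅
  | pos p, _ => M.V p
  | neg p, _ => (M.V p)ᶜ
  | var x, e => e x
  | and φ ψ, e => sem M φ e ∩ sem M ψ e
  | or φ ψ, e => sem M φ e ∪ sem M ψ e
  | dia φ, e => {w | ∃ v, M.R w v ∧ v ∈ sem M φ e}
  | box φ, e => {w | ∀ v, M.R w v → v ∈ sem M φ e}
  | mu x φ, e => ⋂₀ {S | sem M φ (Function.update e x S) ⊆ S}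
  | nu x φ, e => ⋃₀ {S | S ⊆ sem M φ (Function.update e x S)}

/-- The propositional letters occurring in a formula. -/
def letters : Fm → Set ℕ
  | top => ∅
  | bot => ∅
  | pos p => {p}
  | neg p => {p}
  | var _ => ∅
  | and φ ψ => φ.letters ∪ ψ.letters
  | or φ ψ => φ.letters ∪ ψ.letters
  | dia φ => φ.letters
  | box φ => φ.letters
  | mu _ φ => φ.letters
  | nu _ φ => φ.letters

/-- The free fixpoint variables of a formula. -/
def FV : Fm → Set ℕ
  | top => ∅
  | bot => ∅
  | pos _ => ∅
  | neg _ => ∅
  | var x => {x}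
  | and φ ψ => φ.FV ∪ ψ.FV
  | or φ ψ => φ.FV ∪ ψ.FV
  | dia φ => φ.FV
  | box φ => φ.FV
  | mu x φ => φ.FV \ {x}
  | nu x φ => φ.FV \ {x}

/-- `subst x ψ φ` is `φ[ψ/x]`: the free occurrences of the fixpoint variable `x` in `φ` are
replaced by `ψ`. -/
def subst (x : ℕ) (ψ : Fm) : Fm → Fm
  | top => top
  | bot => bot
  | pos p => pos p
  | neg p => neg p
  | var y => if y = x then ψ else var y
  | and φ χ => and (subst x ψ φ) (subst x ψ χ)
  | or φ χ => or (subst x ψ φ) (subst x ψ χ)
  | dia φ => dia (subst x ψ φ)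
  | box φ => box (subst x ψ φ)
  | mu y φ => if y = x then mu y φ else mu y (subst x ψ φ)
  | nu y φ => if y = x then nu y φ else nu y (subst x ψ φ)

/-- `NoCapture x ψ φ`: no free variable of `ψ` is captured in `φ[ψ/x]`, i.e. no free occurrence of
`x` in `φ` lies in the scope of a fixpoint operator that binds a free variable of `ψ`. -/
def NoCapture (x : ℕ) (ψ : Fm) : Fm → Prop
  | top => True
  | bot => True
  | pos _ => True
  | neg _ => True
  | var _ => True
  | and φ χ => NoCapture x ψ φ ∧ NoCapture x ψ χ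
  | or φ χ => NoCapture x ψ φ ∧ NoCapture x ψ χ
  | dia φ => NoCapture x ψ φ
  | box φ => NoCapture x ψ φ
  | mu y φ => x ∈ (mu y φ).FV → y ∉ ψ.FV ∧ NoCapture x ψ φ
  | nu y φ => x ∈ (nu y φ).FV → y ∉ ψ.FV ∧ NoCapture x ψ φ

/-- Fixpoint-free formulas. -/
def FixFree : Fm → Prop
  | top => True
  | bot => True
  | pos _ => True
  | neg _ => True
  | var _ => True
  | and φ ψ => φ.FixFree ∧ ψ.FixFree
  | or φ ψ => φ.FixFree ∧ ψ.FixFree
  | dia φ => φ.FixFree
  | box φ => φ.FixFree
  | mu _ _ => False
  | nu _ _ => False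

end Fm

/-- The least set of formulas containing `B` and closed under conjunction, disjunction, the
modalities, the least fixpoint operators and substitution without variable capture. -/
inductive MuClosure (B : Set Fm) : Fm → Prop
  | base (φ : Fm) : φ ∈ B → MuClosure B φ
  | and (φ ψ : Fm) : MuClosure B φ → MuClosure B ψ → MuClosure B (Fm.and φ ψ)
  | or (φ ψ : Fm) : MuClosure B φ → MuClosure B ψ → MuClosure B (Fm.or φ ψ)
  | dia (φ : Fm) : MuClosure B φ → MuClosure B (Fm.dia φ)
  | box (φ : Fm) : MuClosure B φ → MuClosure B (Fm.box φ)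
  | mu (x : ℕ) (φ : Fm) : MuClosure B φ → MuClosure B (Fm.mu x φ)
  | subst (x : ℕ) (φ ψ : Fm) : MuClosure B φ → MuClosure B ψ → Fm.NoCapture x ψ φ →
      MuClosure B (Fm.subst x ψ φ)

/-- The least set of formulas containing `B` and closed under conjunction, disjunction, the
modalities, the greatest fixpoint operators and substitution without variable capture. -/
inductive NuClosure (B : Set Fm) : Fm → Prop
  | base (φ : Fm) : φ ∈ B → NuClosure B φ
  | and (φ ψ : Fm) : NuClosure B φ → NuClosure B ψ → NuClosure B (Fm.and φ ψ)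
  | or (φ ψ : Fm) : NuClosure B φ → NuClosure B ψ → NuClosure B (Fm.or φ ψ)
  | dia (φ : Fm) : NuClosure B φ → NuClosure B (Fm.dia φ)
  | box (φ : Fm) : NuClosure B φ → NuClosure B (Fm.box φ)
  | nu (x : ℕ) (φ : Fm) : NuClosure B φ → NuClosure B (Fm.nu x φ)
  | subst (x : ℕ) (φ ψ : Fm) : NuClosure B φ → NuClosure B ψ → Fm.NoCapture x ψ φ →
      NuClosure B (Fm.subst x ψ φ)

/-- The pair of levels `(Sigma_n, Pi_n)` of the alternation hierarchy. -/
def level : ℕ → Set Fm × Set Fm
  | 0 => ({φ | φ.FixFree}, {φ | φ.FixFree})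
  | n + 1 => ({φ | MuClosure ((level n).1 ∪ (level n).2) φ},
      {φ | NuClosure ((level n).1 ∪ (level n).2) φ})

/-- The level `Sigma_n` of the alternation hierarchy. -/
def SigmaLevel (n : ℕ) : Set Fm := (level n).1

/-- The level `Pi_n` of the alternation hierarchy. -/
def PiLevel (n : ℕ) : Set Fm := (level n).2

/-- The implication `φ → ψ` is valid: at every point of every Kripke model (and for every
interpretation of the free fixpoint variables, if there are any) `ψ` is true if `φ` is. -/
def ValidImp (φ ψ : Fm) : Prop :=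
  ∀ (M : Kripke) (e : ℕ → Set M.W) (w : M.W), w ∈ φ.sem M e → w ∈ ψ.sem M e

/-- The set `F` of formulas has Craig interpolation. -/
def HasCraig (F : Set Fm) : Prop :=
  ∀ φ ∈ F, ∀ ψ ∈ F, ValidImp φ ψ →
    ∃ χ ∈ F, χ.letters ⊆ φ.letters ∩ ψ.letters ∧ ValidImp φ χ ∧ ValidImp χ ψ

end Pool.Agent.MuCraig
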