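import Pool.Agent.MuCraig.Basic

/-!
# The formulas saying that a letter marks a winning strategy in a parity game

Letter `0` marks the positions of Eve (`c = true`), the letters `1, ..., N` are the priorities, the
letter `N + 1` marks the strategy of Eve and the letter `N + 2` that of Adam (`c = false`).
-/

namespace Pool.Agent.MuCraig

open Fm

def ownF (c : Bool) : Fm := if c = true then pos 0 else neg 0
def oppF (c : Bool) : Fm := if c = true then neg 0 else pos 0
def sLet (N : ℕ) (c : Bool) : ℕ := if c = true then N + 1 else N + 2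
def nextF (N : ℕ) (c : Bool) (ξ : Fm) : Fm :=
  or (and (ownF c) (box (or (neg (sLet N c)) ξ))) (and (oppF c) (box ξ))
def moveF (N : ℕ) (c : Bool) : Fm := or (oppF c) (dia (pos (sLet N c)))
def prF (j : ℕ) : Fm := if j = 0 then top else pos j
def nprF (j : ℕ) : Fm := if j = 0 then bot else neg j
def bigOr : List Fm → Fm
  | [] => bot
  | φ :: l => or φ (bigOr l)
def bigAnd : List Fm → Fm
  | [] => top
  | φ :: l => and φ (bigAnd l)
def goodAbove (N : ℕ) (c : Bool) (j : ℕ) : Fm :=
  bigOr (((List.range (N + 1)).filter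
    (fun i => decide (j < i ∧ (i % 2 = 0 ↔ c = true)))).map (fun i => pos i))
def thetaBody (N : ℕ) (c : Bool) (j : ℕ) : Fm :=
  or (goodAbove N c j) (or (and (prF j) (nextF N c (var 2))) (and (nprF j) (nextF N c (var 3))))
def theta (N : ℕ) (c : Bool) (j : ℕ) : Fm := mu 2 (nu 3 (thetaBody N c j))
def Theta (N : ℕ) (c : Bool) : Fm :=
  bigAnd (((List.range (N + 1)).filter (fun j => decide (¬ (j % 2 = 0 ↔ c = true)))).map
    (fun j => theta N c j))
def phiBody (N : ℕ) (c : Bool) (ξ : Fm) : Fm := and (moveF N c) (and (nextF N c (var 0)) ξ)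
def Phi (N : ℕ) (c : Bool) : Fm := nu 0 (phiBody N c (Theta N c))

/-! ### Syntactic facts -/

theorem fixFree_ownF (c : Bool) : (ownF c).FixFree := by cases c <;> trivial
theorem fixFree_oppF (c : Bool) : (oppF c).FixFree := by cases c <;> trivial
theorem fixFree_nextF (N : ℕ) (c : Bool) (ξ : Fm) (h : ξ.FixFree) : (nextF N c ξ).FixFree :=
  ⟨⟨fixFree_ownF c, ⟨trivial, h⟩⟩, ⟨fixFree_oppF c, h⟩⟩
theorem fixFree_prF (j : ℕ) : (prF j).FixFree := by
  unfold prF; split <;> trivial
theorem fixFree_nprF (j : ℕ) : (nprF j).FixFree := by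
  unfold nprF; split <;> trivial
theorem fixFree_bigOr (l : List Fm) (h : ∀ φ ∈ l, φ.FixFree) : (bigOr l).FixFree := by
  induction l with
  | nil => trivial
  | cons φ l ih => exact ⟨h φ (by simp), ih (fun ψ hψ => h ψ (by simp [hψ]))⟩
theorem fixFree_goodAbove (N : ℕ) (c : Bool) (j : ℕ) : (goodAbove N c j).FixFree := by
  apply fixFree_bigOr
  intro φ hφ
  simp only [List.mem_map] at hφ
  obtain ⟨i, _, rfl⟩ := hφ
  trivial
theorem fixFree_thetaBody (N : ℕ) (c : Bool) (j : ℕ) : (thetaBody N c j).FixFree :=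
  ⟨fixFree_goodAbove N c j, ⟨fixFree_prF j, fixFree_nextF N c _ trivial⟩,
    ⟨fixFree_nprF j, fixFree_nextF N c _ trivial⟩⟩

theorem fixFree_mem_level_zero (φ : Fm) (h : φ.FixFree) : φ ∈ (level 0).1 ∪ (level 0).2 := Or.inl h

theorem theta_mem (N : ℕ) (c : Bool) (j : ℕ) : theta N c j ∈ SigmaLevel 2 := by
  refine MuClosure.mu _ _ (MuClosure.base _ (Or.inr ?_))
  exact NuClosure.nu _ _ (NuClosure.base _ (fixFree_mem_level_zero _ (fixFree_thetaBody N c j)))

theorem fixFree_mem_sigma_two (φ : Fm) (h : φ.FixFree) : φ ∈ SigmaLevel 2 :=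
  MuClosure.base _ (Or.inl (MuClosure.base _ (fixFree_mem_level_zero _ h)))

theorem Theta_mem (N : ℕ) (c : Bool) : Theta N c ∈ SigmaLevel 2 := by
  unfold Theta
  generalize ((List.range (N + 1)).filter (fun j => decide (¬ (j % 2 = 0 ↔ c = true)))) = l
  induction l with
  | nil => exact fixFree_mem_sigma_two _ trivial
  | cons j l ih => exact MuClosure.and _ _ (theta_mem N c j) ih

theorem FV_ownF (c : Bool) : (ownF c).FV = ∅ := by cases c <;> rfl
theorem FV_oppF (c : Bool) : (oppF c).FV = ∅ := by cases c <;> rfl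
theorem FV_nextF (N : ℕ) (c : Bool) (ξ : Fm) : (nextF N c ξ).FV = ξ.FV := by
  simp [nextF, FV, FV_ownF, FV_oppF]
theorem FV_prF (j : ℕ) : (prF j).FV = ∅ := by
  unfold prF; split <;> rfl
theorem FV_nprF (j : ℕ) : (nprF j).FV = ∅ := by
  unfold nprF; split <;> rfl
theorem FV_goodAbove (N : ℕ) (c : Bool) (j : ℕ) : (goodAbove N c j).FV = ∅ := by
  unfold goodAbove
  generalize ((List.range (N + 1)).filter
    (fun i => decide (j < i ∧ (i % 2 = 0 ↔ c = true)))) = l
  induction l with
  | nil => rfl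
  | cons i l ih => simpa [bigOr, FV] using ih
theorem FV_theta (N : ℕ) (c : Bool) (j : ℕ) : (theta N c j).FV = ∅ := by
  simp only [theta, thetaBody, FV, FV_nextF, FV_prF, FV_nprF, FV_goodAbove]
  ext x; simp
theorem FV_Theta (N : ℕ) (c : Bool) : (Theta N c).FV = ∅ := by
  unfold Theta
  generalize ((List.range (N + 1)).filter (fun j => decide (¬ (j % 2 = 0 ↔ c = true)))) = l
  induction l with
  | nil => rfl
  | cons j l ih =>
    simp only [List.map_cons, bigAnd, FV, FV_theta, Set.empty_union]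
    exact ih
theorem FV_Phi (N : ℕ) (c : Bool) : (Phi N c).FV = ∅ := by
  simp only [Phi, phiBody, moveF, FV, FV_nextF, FV_Theta, FV_oppF]
  ext x; simp

theorem subst_ownF (x : ℕ) (ψ : Fm) (c : Bool) : subst x ψ (ownF c) = ownF c := by
  cases c <;> rfl
theorem subst_oppF (x : ℕ) (ψ : Fm) (c : Bool) : subst x ψ (oppF c) = oppF c := by
  cases c <;> rfl

theorem Phi_mem (N : ℕ) (c : Bool) : Phi N c ∈ SigmaLevel 2 := by
  have h1 : Phi N c = subst 1 (Theta N c) (nu 0 (phiBody N c (var 1))) := by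
    simp [Phi, phiBody, subst, moveF, nextF, subst_ownF, subst_oppF]
  rw [h1]
  refine MuClosure.subst _ _ _ (MuClosure.base _ (Or.inr ?_)) (Theta_mem N c) ?_
  · refine NuClosure.nu _ _ (NuClosure.base _ (fixFree_mem_level_zero _ ?_))
    exact ⟨⟨fixFree_oppF c, trivial⟩, fixFree_nextF N c _ trivial, trivial⟩
  · intro _
    refine ⟨by rw [FV_Theta]; exact fun h => h, ?_⟩
    have h2 : NoCapture 1 (Theta N c) (ownF c) := by cases c <;> trivial
    have h3 : NoCapture 1 (Theta N c) (oppF c) := by cases c <;> trivial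
    exact ⟨⟨h3, trivial⟩, ⟨⟨h2, trivial, trivial⟩, h3, trivial⟩, trivial⟩

theorem letters_ownF (c : Bool) : (ownF c).letters = {0} := by cases c <;> rfl
theorem letters_oppF (c : Bool) : (oppF c).letters = {0} := by cases c <;> rfl
theorem letters_nextF (N : ℕ) (c : Bool) (ξ : Fm) :
    (nextF N c ξ).letters ⊆ {0} ∪ {sLet N c} ∪ ξ.letters := by
  simp only [nextF, letters, letters_ownF, letters_oppF]
  intro p hp
  simp only [Set.mem_union, Set.mem_singleton_iff] at *
  tauto

/-- the letters allowed in `Phi N c` -/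
def okLet (N : ℕ) (c : Bool) : Set ℕ := {p | p ≤ N} ∪ {sLet N c}

theorem letters_nextF_ok (N : ℕ) (c : Bool) (ξ : Fm) (h : ξ.letters ⊆ okLet N c) :
    (nextF N c ξ).letters ⊆ okLet N c := by
  intro p hp
  rcases letters_nextF N c ξ hp with (h1 | h1) | h1
  · have : p = 0 := h1
    left
    show p ≤ N
    omega
  · exact Or.inr h1
  · exact h h1

theorem letters_goodAbove (N : ℕ) (c : Bool) (j : ℕ) : (goodAbove N c j).letters ⊆ {p | p ≤ N} := by
  unfold goodAbove
  have : ∀ l : List ℕ, (∀ i ∈ l, i ≤ N) → (bigOr (l.map (fun i => pos i))).letters ⊆ {p | p ≤ N} := by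
    intro l
    induction l with
    | nil => intro _ p hp; exact hp.elim
    | cons i l ih =>
      intro h p hp
      rcases hp with hp | hp
      · have : p = i := hp
        rw [this]
        exact h i (by simp)
      · exact ih (fun k hk => h k (by simp [hk])) hp
  apply this
  intro i hi
  simp only [List.mem_filter, List.mem_range] at hi
  omega

theorem letters_theta (N : ℕ) (c : Bool) (j : ℕ) (hj : j ≤ N) :
    (theta N c j).letters ⊆ okLet N c := by
  intro p hp
  simp only [theta, thetaBody, letters, Set.mem_union] at hp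
  rcases hp with hp | (hp | hp) | (hp | hp)
  · exact Or.inl (letters_goodAbove N c j hp)
  · left
    unfold prF at hp
    split at hp
    · exact hp.elim
    · have : p = j := hp
      rw [this]; exact hj
  · exact letters_nextF_ok N c (var 2) (Set.empty_subset _) hp
  · left
    unfold nprF at hp
    split at hp
    · exact hp.elim
    · have : p = j := hp
      rw [this]; exact hj
  · exact letters_nextF_ok N c (var 3) (Set.empty_subset _) hp

theorem letters_Theta (N : ℕ) (c : Bool) : (Theta N c).letters ⊆ okLet N c := by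
  unfold Theta
  have : ∀ l : List ℕ, (∀ i ∈ l, i ≤ N) →
      (bigAnd (l.map (fun j => theta N c j))).letters ⊆ okLet N c := by
    intro l
    induction l with
    | nil => intro _ p hp; exact hp.elim
    | cons i l ih =>
      intro h p hp
      rcases hp with hp | hp
      · exact letters_theta N c i (h i (by simp)) hp
      · exact ih (fun k hk => h k (by simp [hk])) hp
  apply this
  intro i hi
  simp only [List.mem_filter, List.mem_range] at hi
  omega

theorem letters_Phi (N : ℕ) (c : Bool) : (Phi N c).letters ⊆ okLet N c := by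
  intro p hp
  simp only [Phi, phiBody, moveF, letters, Set.mem_union] at hp
  rcases hp with (hp | hp) | hp | hp
  · rw [letters_oppF] at hp
    have : p = 0 := hp
    left
    show p ≤ N
    omega
  · exact Or.inr hp
  · exact letters_nextF_ok N c (var 0) (Set.empty_subset _) hp
  · exact letters_Theta N c hp

/-! ### Semantics -/

section sem

variable (M : Kripke) (N : ℕ) (c : Bool)

/-- `w` is a position of player `c`. -/
def Own (w : M.W) : Prop := (w ∈ M.V 0 ↔ c = true)

/-- `w` is marked by the strategy letter of player `c`. -/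
def St (w : M.W) : Prop := w ∈ M.V (sLet N c)

/-- Edges consistent with the marked strategy of player `c`. -/
def Edge (w v : M.W) : Prop := M.R w v ∧ (Own M c w → St M N c v)

def Pr (j : ℕ) (w : M.W) : Prop := j = 0 ∨ w ∈ M.V j

/-- Some priority `i > j` that is good for `c` is seen at `w`. -/
def GA (j : ℕ) (w : M.W) : Prop := ∃ i, j < i ∧ i ≤ N ∧ (i % 2 = 0 ↔ c = true) ∧ w ∈ M.V i

theorem mem_ownF (e : ℕ → Set M.W) (w : M.W) : w ∈ (ownF c).sem M e ↔ Own M c w := by
  unfold Own
  cases c <;> simp [ownF, Fm.sem]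

theorem mem_oppF (e : ℕ → Set M.W) (w : M.W) : w ∈ (oppF c).sem M e ↔ ¬ Own M c w := by
  unfold Own
  cases c <;> simp [oppF, Fm.sem]

theorem mem_nextF (ξ : Fm) (e : ℕ → Set M.W) (w : M.W) :
    w ∈ (nextF N c ξ).sem M e ↔ ∀ v, Edge M N c w v → v ∈ ξ.sem M e := by
  have h1 : w ∈ (nextF N c ξ).sem M e ↔
      (w ∈ (ownF c).sem M e ∧ ∀ v, M.R w v → (v ∉ M.V (sLet N c) ∨ v ∈ ξ.sem M e)) ∨
      (w ∈ (oppF c).sem M e ∧ ∀ v, M.R w v → v ∈ ξ.sem M e) := Iff.rfl
  rw [h1, mem_ownF, mem_oppF]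
  constructor
  · rintro (⟨h1, h2⟩ | ⟨h1, h2⟩) v ⟨hv1, hv2⟩
    · rcases h2 v hv1 with h3 | h3
      · exact absurd (hv2 h1) h3
      · exact h3
    · exact h2 v hv1
  · intro h
    by_cases ho : Own M c w
    · left
      refine ⟨ho, fun v hv => ?_⟩
      by_cases hs : v ∈ M.V (sLet N c)
      · exact Or.inr (h v ⟨hv, fun _ => hs⟩)
      · exact Or.inl hs
    · right
      exact ⟨ho, fun v hv => h v ⟨hv, fun h' => absurd h' ho⟩⟩

theorem mem_moveF (e : ℕ → Set M.W) (w : M.W) :
    w ∈ (moveF N c).sem M e ↔ (Own M c w → ∃ v, M.R w v ∧ St M N c v) := by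
  have h1 : w ∈ (moveF N c).sem M e ↔
      (w ∈ (oppF c).sem M e ∨ ∃ v, M.R w v ∧ v ∈ M.V (sLet N c)) := Iff.rfl
  rw [h1, mem_oppF]
  by_cases ho : Own M c w
  · simp only [ho, not_true_eq_false, false_or, true_imp_iff]; rfl
  · simp [ho]

theorem mem_prF (j : ℕ) (e : ℕ → Set M.W) (w : M.W) : w ∈ (prF j).sem M e ↔ Pr M j w := by
  unfold prF Pr
  by_cases hj : j = 0 <;> simp [hj, Fm.sem]

theorem mem_nprF (j : ℕ) (e : ℕ → Set M.W) (w : M.W) : w ∈ (nprF j).sem M e ↔ ¬ Pr M j w := by
  unfold nprF Pr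
  by_cases hj : j = 0 <;> simp [hj, Fm.sem]

theorem mem_bigOr (l : List Fm) (e : ℕ → Set M.W) (w : M.W) :
    w ∈ (bigOr l).sem M e ↔ ∃ φ ∈ l, w ∈ φ.sem M e := by
  induction l with
  | nil => simp [bigOr, Fm.sem]
  | cons φ l ih =>
    have h1 : w ∈ (bigOr (φ :: l)).sem M e ↔ (w ∈ φ.sem M e ∨ w ∈ (bigOr l).sem M e) := Iff.rfl
    rw [h1, ih]
    simp

theorem mem_bigAnd (l : List Fm) (e : ℕ → Set M.W) (w : M.W) :
    w ∈ (bigAnd l).sem M e ↔ ∀ φ ∈ l, w ∈ φ.sem M e := by
  induction l with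
  | nil => simp [bigAnd, Fm.sem]
  | cons φ l ih =>
    have h1 : w ∈ (bigAnd (φ :: l)).sem M e ↔ (w ∈ φ.sem M e ∧ w ∈ (bigAnd l).sem M e) := Iff.rfl
    rw [h1, ih]
    simp

theorem mem_goodAbove (j : ℕ) (e : ℕ → Set M.W) (w : M.W) :
    w ∈ (goodAbove N c j).sem M e ↔ GA M N c j w := by
  unfold goodAbove GA
  rw [mem_bigOr]
  constructor
  · rintro ⟨φ, hφ, hw⟩
    simp only [List.mem_map, List.mem_filter, List.mem_range, decide_eq_true_eq] at hφ
    obtain ⟨i, ⟨h1, h2, h3⟩, rfl⟩ := hφ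
    exact ⟨i, h2, by omega, h3, hw⟩
  · rintro ⟨i, h1, h2, h3, h4⟩
    refine ⟨pos i, ?_, h4⟩
    simp only [List.mem_map, List.mem_filter, List.mem_range, decide_eq_true_eq]
    exact ⟨i, ⟨by omega, h1, h3⟩, rfl⟩

theorem mem_thetaBody (j : ℕ) (e : ℕ → Set M.W) (X Y : Set M.W) (w : M.W) :
    w ∈ (thetaBody N c j).sem M (Function.update (Function.update e 2 X) 3 Y) ↔
      (GA M N c j w ∨ (Pr M j w ∧ ∀ v, Edge M N c w v → v ∈ X) ∨
        (¬ Pr M j w ∧ ∀ v, Edge M N c w v → v ∈ Y)) := by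
  have h1 : ∀ e', w ∈ (thetaBody N c j).sem M e' ↔ (w ∈ (goodAbove N c j).sem M e' ∨
      ((w ∈ (prF j).sem M e' ∧ w ∈ (nextF N c (var 2)).sem M e') ∨
       (w ∈ (nprF j).sem M e' ∧ w ∈ (nextF N c (var 3)).sem M e'))) := fun _ => Iff.rfl
  rw [h1, mem_goodAbove, mem_prF, mem_nprF, mem_nextF, mem_nextF]
  have h2 : (var 2).sem M (Function.update (Function.update e 2 X) 3 Y) = X := by
    simp [Fm.sem]
  have h3 : (var 3).sem M (Function.update (Function.update e 2 X) 3 Y) = Y := by
    simp [Fm.sem]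
  rw [h2, h3]

/-- Along a consistent path from a point of `theta` without good priorities above `j`, the priority
`j` is seen only finitely often. -/
theorem theta_path (j : ℕ) (e : ℕ → Set M.W) (g : ℕ → M.W)
    (hg : ∀ n, Edge M N c (g n) (g (n + 1))) (h0 : g 0 ∈ (theta N c j).sem M e)
    (hGA : ∀ n, ¬ GA M N c j (g n)) : ∃ n, ∀ m, n ≤ m → ¬ Pr M j (g m) := by
  let S : Set M.W := {w | ∀ g : ℕ → M.W, g 0 = w → (∀ n, Edge M N c (g n) (g (n + 1))) →
    (∀ n, ¬ GA M N c j (g n)) → ∃ n, ∀ m, n ≤ m → ¬ Pr M j (g m)}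
  have hsub : (theta N c j).sem M e ⊆ S := by
    apply Set.sInter_subset_of_mem
    show (nu 3 (thetaBody N c j)).sem M (Function.update e 2 S) ⊆ S
    rintro w ⟨T, hT, hwT⟩ g hg0 hg hGA
    have hT' : T ⊆ (thetaBody N c j).sem M (Function.update (Function.update e 2 S) 3 T) := hT
    by_cases hP : ∃ n, Pr M j (g n)
    · classical
      let n := Nat.find hP
      have hn : Pr M j (g n) := Nat.find_spec hP
      have hmin : ∀ m, m < n → ¬ Pr M j (g m) := fun m hm => Nat.find_min hP hm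
      have hmem : ∀ m, m ≤ n → g m ∈ T := by
        intro m
        induction m with
        | zero => intro _; rw [hg0]; exact hwT
        | succ m ih =>
          intro hm
          have h1 := hT' (ih (by omega))
          rw [mem_thetaBody] at h1
          rcases h1 with h1 | ⟨h1, _⟩ | ⟨_, h1⟩
          · exact absurd h1 (hGA m)
          · exact absurd h1 (hmin m (by omega))
          · exact h1 _ (hg m)
      have h1 := hT' (hmem n le_rfl)
      rw [mem_thetaBody] at h1
      rcases h1 with h1 | ⟨_, h1⟩ | ⟨h1, _⟩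
      · exact absurd h1 (hGA n)
      · have h2 := h1 _ (hg n)
        obtain ⟨k, hk⟩ := h2 (fun m => g (n + 1 + m)) rfl (fun m => hg (n + 1 + m))
          (fun m => hGA (n + 1 + m))
        refine ⟨n + 1 + k, fun m hm => ?_⟩
        have := hk (m - (n + 1)) (by omega)
        have e : n + 1 + (m - (n + 1)) = m := by omega
        simpa [e] using this
      · exact absurd hn h1
    · push Not at hP
      exact ⟨0, fun m _ => hP m⟩
  exact hsub h0 g rfl hg hGA

theorem Phi_unfold (e : ℕ → Set M.W) (w : M.W) (h : w ∈ (Phi N c).sem M e) :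
    (Own M c w → ∃ v, M.R w v ∧ St M N c v) ∧
    (∀ v, Edge M N c w v → v ∈ (Phi N c).sem M e) ∧
    (∀ j, j ≤ N → ¬ (j % 2 = 0 ↔ c = true) → w ∈ (theta N c j).sem M e) := by
  have h1 := sem_nu_eq M 0 (phiBody N c (Theta N c)) e
  have h2 : w ∈ (phiBody N c (Theta N c)).sem M
      (Function.update e 0 ((Phi N c).sem M e)) := by
    have : w ∈ (nu 0 (phiBody N c (Theta N c))).sem M e := h
    rw [← h1] at this
    exact this
  obtain ⟨h3, h4, h5⟩ := h2
  refine ⟨(mem_moveF M N c _ w).1 h3, ?_, ?_⟩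
  · intro v hv
    have h6 := (mem_nextF M N c _ _ w).1 h4 v hv
    simpa [Fm.sem] using h6
  · intro j hj hbad
    have h6 : (Theta N c).sem M (Function.update e 0 ((Phi N c).sem M e)) = (Theta N c).sem M e := by
      apply sem_congr
      intro x hx
      rw [FV_Theta] at hx
      exact hx.elim
    rw [h6] at h5
    unfold Theta at h5
    rw [mem_bigAnd] at h5
    apply h5
    simp only [List.mem_map, List.mem_filter, List.mem_range, decide_eq_true_eq]
    exact ⟨j, ⟨by omega, hbad⟩, rfl⟩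

end sem

/-- The marked strategies of Eve and Adam cannot both be winning. -/
theorem Phi_disjoint (M : Kripke) (N : ℕ) (e : ℕ → Set M.W) (w : M.W)
    (h1 : w ∈ (Phi N true).sem M e) (h2 : w ∈ (Phi N false).sem M e) : False := by
  let U := {w : M.W // w ∈ (Phi N true).sem M e ∧ w ∈ (Phi N false).sem M e}
  have hstep : ∀ u : U, ∃ v : U, ∀ c, Edge M N c u.1 v.1 := by
    rintro ⟨u, hu1, hu2⟩
    obtain ⟨a1, a2, _⟩ := Phi_unfold M N true e u hu1
    obtain ⟨b1, b2, _⟩ := Phi_unfold M N false e u hu2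
    by_cases ho : Own M true u
    · obtain ⟨v, hv1, hv2⟩ := a1 ho
      have ho' : ¬ Own M false u := by
        unfold Own at *
        intro h
        have : u ∈ M.V 0 := ho.2 rfl
        exact Bool.false_ne_true (h.1 this)
      have hE1 : Edge M N true u v := ⟨hv1, fun _ => hv2⟩
      have hE2 : Edge M N false u v := ⟨hv1, fun h => absurd h ho'⟩
      refine ⟨⟨v, a2 v hE1, b2 v hE2⟩, fun c => ?_⟩
      cases c
      · exact hE2
      · exact hE1
    · have ho' : Own M false u := by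
        unfold Own at *
        constructor
        · intro h
          exact absurd ⟨fun _ => rfl, fun _ => h⟩ ho
        · intro h
          exact absurd h Bool.false_ne_true
      obtain ⟨v, hv1, hv2⟩ := b1 ho'
      have hE2 : Edge M N false u v := ⟨hv1, fun _ => hv2⟩
      have hE1 : Edge M N true u v := ⟨hv1, fun h => absurd h ho⟩
      refine ⟨⟨v, a2 v hE1, b2 v hE2⟩, fun c => ?_⟩
      cases c
      · exact hE2
      · exact hE1
  choose nxt hnxt using hstep
  let f : ℕ → U := fun n => nxt^[n] ⟨w, h1, h2⟩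
  have hf : ∀ n c, Edge M N c (f n).1 (f (n + 1)).1 := by
    intro n c
    have : f (n + 1) = nxt (f n) := Function.iterate_succ_apply' nxt n _
    rw [this]
    exact hnxt (f n) c
  -- the largest priority seen infinitely often
  have hmax : ∃ j, j ≤ N ∧ (∀ n, ∃ m, n ≤ m ∧ Pr M j (f m).1) ∧
      ∀ i, j < i → i ≤ N → ¬ (∀ n, ∃ m, n ≤ m ∧ (f m).1 ∈ M.V i) := by
    classical
    let P : ℕ → Prop := fun j => ∀ n, ∃ m, n ≤ m ∧ Pr M j (f m).1
    have hP0 : P 0 := fun n => ⟨n, le_rfl, Or.inl rfl⟩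
    refine ⟨Nat.findGreatest P N, Nat.findGreatest_le N,
      Nat.findGreatest_spec (P := P) (Nat.zero_le N) hP0, ?_⟩
    intro i hi1 hi2 hi3
    have hPi : P i := by
      intro n
      obtain ⟨m, hm, hm'⟩ := hi3 n
      exact ⟨m, hm, Or.inr hm'⟩
    exact absurd hPi (Nat.findGreatest_is_greatest hi1 hi2)
  obtain ⟨j, hjN, hj1, hj2⟩ := hmax
  -- the player for whom `j` is bad
  obtain ⟨c, hc⟩ : ∃ c : Bool, ¬ (j % 2 = 0 ↔ c = true) := by
    by_cases hj : j % 2 = 0
    · exact ⟨false, by simp [hj]⟩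
    · exact ⟨true, by simp [hj]⟩
  have hmem : ∀ n, (f n).1 ∈ (theta N c j).sem M e := by
    intro n
    cases c with
    | true => exact (Phi_unfold M N true e _ (f n).2.1).2.2 j hjN hc
    | false => exact (Phi_unfold M N false e _ (f n).2.2).2.2 j hjN hc
  have hGA : ∀ n, ∃ m, n ≤ m ∧ GA M N c j (f m).1 := by
    intro n
    by_contra hcon
    push Not at hcon
    obtain ⟨k, hk⟩ := theta_path M N c j e (fun m => (f (n + m)).1) (fun m => hf (n + m) c)
      (hmem n) (fun m => hcon (n + m) (by omega))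
    obtain ⟨m, hm, hm'⟩ := hj1 (n + k)
    have := hk (m - n) (by omega)
    have e : n + (m - n) = m := by omega
    rw [e] at this
    exact this hm'
  -- finitely many priorities
  have hev : ∀ i ∈ Finset.Icc (j + 1) N, ∀ᶠ m in Filter.atTop, (f m).1 ∉ M.V i := by
    intro i hi
    rw [Finset.mem_Icc] at hi
    have := hj2 i (by omega) hi.2
    push Not at this
    obtain ⟨n, hn⟩ := this
    exact Filter.eventually_atTop.2 ⟨n, hn⟩
  have hev' : ∀ᶠ m in Filter.atTop, ∀ i ∈ Finset.Icc (j + 1) N, (f m).1 ∉ M.V i :=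
    (Filter.eventually_all_finset _).2 hev
  obtain ⟨n, hn⟩ := Filter.eventually_atTop.1 hev'
  obtain ⟨m, hm, i, hi1, hi2, _, hi4⟩ := hGA n
  exact hn m hm i (by rw [Finset.mem_Icc]; omega) hi4

/-- A region that is closed under consistent moves and on which all consistent paths are good
satisfies `Phi`. -/
theorem Phi_of_region (K : Kripke) (N : ℕ) (c : Bool) (e : ℕ → Set K.W) (Z : Set K.W)
    (hmove : ∀ z ∈ Z, Own K c z → ∃ v, K.R z v ∧ St K N c v)
    (hcl : ∀ z ∈ Z, ∀ v, Edge K N c z v → v ∈ Z)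
    (hgood : ∀ g : ℕ → K.W, (∀ n, g n ∈ Z) → (∀ n, Edge K N c (g n) (g (n + 1))) →
      ∀ j, j ≤ N → ¬ (j % 2 = 0 ↔ c = true) → (∀ n, ¬ GA K N c j (g n)) →
      ¬ (∀ n, ∃ m, n ≤ m ∧ Pr K j (g m))) :
    Z ⊆ (Phi N c).sem K e := by
  -- all points of `Z` satisfy `theta`
  have htheta : ∀ j, j ≤ N → ¬ (j % 2 = 0 ↔ c = true) → Z ⊆ (theta N c j).sem K e := by
    intro j hjN hbad z0 hz0
    by_contra hz0T
    let T := (theta N c j).sem K e
    -- a postfixpoint relative to `T` is contained in `T`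
    have hpost : ∀ Y : Set K.W, (∀ y ∈ Y, GA K N c j y ∨ (Pr K j y ∧ ∀ v, Edge K N c y v → v ∈ T) ∨
        (¬ Pr K j y ∧ ∀ v, Edge K N c y v → v ∈ Y)) → Y ⊆ T := by
      intro Y hY
      have h1 : (nu 3 (thetaBody N c j)).sem K (Function.update e 2 T) = T :=
        sem_mu_eq K 2 (nu 3 (thetaBody N c j)) e
      rw [← h1]
      apply Set.subset_sUnion_of_mem
      show Y ⊆ (thetaBody N c j).sem K (Function.update (Function.update e 2 T) 3 Y)
      intro y hy
      rw [mem_thetaBody]
      exact hY y hy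
    let Bad : ℕ → K.W → Prop := fun n => Nat.rec
      (fun w => ¬ GA K N c j w ∧ Pr K j w ∧ ∃ v, Edge K N c w v ∧ v ∉ T)
      (fun _ B w => ¬ GA K N c j w ∧ ∃ v, Edge K N c w v ∧ B v) n
    have hBad : ∀ z ∈ Z, z ∉ T → ∃ n, Bad n z := by
      intro z hz hzT
      by_contra hcon
      push Not at hcon
      apply hzT
      refine hpost {y | y ∈ Z ∧ ∀ n, ¬ Bad n y} ?_ ⟨hz, hcon⟩
      rintro y ⟨hyZ, hy⟩
      by_cases hGA : GA K N c j y
      · exact Or.inl hGA
      · right
        by_cases hP : Pr K j y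
        · left
          refine ⟨hP, fun v hv => ?_⟩
          by_contra hvT
          exact hy 0 ⟨hGA, hP, v, hv, hvT⟩
        · right
          refine ⟨hP, fun v hv => ⟨hcl y hyZ v hv, fun n hn => ?_⟩⟩
          exact hy (n + 1) ⟨hGA, v, hv, hn⟩
    let St' := {p : ℕ × K.W // p.2 ∈ Z ∧ Bad p.1 p.2}
    have hstep : ∀ p : St', ∃ p' : St', Edge K N c p.1.2 p'.1.2 ∧
        (p.1.1 = 0 ∨ p.1.1 = p'.1.1 + 1) := by
      rintro ⟨⟨n, y⟩, hyZ, hy⟩
      cases n with
      | zero =>
        obtain ⟨_, _, v, hv, hvT⟩ := hy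
        have hvZ : v ∈ Z := hcl y hyZ v hv
        obtain ⟨m, hm⟩ := hBad v hvZ hvT
        exact ⟨⟨(m, v), hvZ, hm⟩, hv, Or.inl rfl⟩
      | succ n =>
        obtain ⟨_, v, hv, hvB⟩ := hy
        exact ⟨⟨(n, v), hcl y hyZ v hv, hvB⟩, hv, Or.inr rfl⟩
    choose nxt hnxt1 hnxt2 using hstep
    obtain ⟨n0, hn0⟩ := hBad z0 hz0 hz0T
    let f : ℕ → St' := fun n => nxt^[n] ⟨(n0, z0), hz0, hn0⟩
    have hf : ∀ n, f (n + 1) = nxt (f n) := fun n => Function.iterate_succ_apply' nxt n _
    have hzero : ∀ k n, (f n).1.1 = k → ∃ m, n ≤ m ∧ (f m).1.1 = 0 := by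
      intro k
      induction k with
      | zero => intro n hn; exact ⟨n, le_rfl, hn⟩
      | succ k ih =>
        intro n hn
        have h1 := hnxt2 (f n)
        rw [← hf n] at h1
        obtain ⟨m, hm, hm'⟩ := ih (n + 1) (by omega)
        exact ⟨m, by omega, hm'⟩
    refine hgood (fun n => (f n).1.2) (fun n => (f n).2.1) ?_ j hjN hbad ?_ ?_
    · intro n
      rw [hf n]
      exact hnxt1 (f n)
    · intro n
      have h1 := (f n).2.2
      generalize (f n).1.1 = k at h1
      cases k with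
      | zero => exact h1.1
      | succ k => exact h1.1
    · intro n
      obtain ⟨m, hm, hm'⟩ := hzero _ n rfl
      refine ⟨m, hm, ?_⟩
      have h1 := (f m).2.2
      rw [hm'] at h1
      exact h1.2.1
  apply Set.subset_sUnion_of_mem
  show Z ⊆ (phiBody N c (Theta N c)).sem K (Function.update e 0 Z)
  intro z hz
  refine ⟨(mem_moveF K N c _ z).2 (hmove z hz), (mem_nextF K N c _ _ z).2 ?_, ?_⟩
  · intro v hv
    have : (var 0).sem K (Function.update e 0 Z) = Z := by simp [Fm.sem]
    rw [this]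
    exact hcl z hz v hv
  · have h6 : (Theta N c).sem K (Function.update e 0 Z) = (Theta N c).sem K e := by
      apply sem_congr
      intro x hx
      rw [FV_Theta] at hx
      exact hx.elim
    rw [h6]
    unfold Theta
    rw [mem_bigAnd]
    intro φ hφ
    simp only [List.mem_map, List.mem_filter, List.mem_range, decide_eq_true_eq] at hφ
    obtain ⟨j, ⟨h1, h2⟩, rfl⟩ := hφ
    exact htheta j (by omega) h2 hz

end Pool.Agent.MuCraig
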