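import Pool.Agent.MuCraig.Aut
import Pool.Agent.MuCraig.Strategy

/-!
# The diagonal model and the failure of Craig interpolation
-/

namespace Pool.Agent.MuCraig

open Fm

/-! ### The diagonal model -/

/-- Does the position with transition condition `d` belong to Eve?  `l` tells which letters are true
at the current point. -/
def eveOwn {Q : Type} (l : ℕ → Prop) : Tr Q → Prop
  | .const b => b = false
  | .lit b p => ¬ (l p ↔ b = true)
  | .var _ => True
  | .bin b _ _ => b = true
  | .mod b _ => b = true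
  | .eps _ => True

/-- The letters true at a point of the diagonal model: the letter `0` marks the positions of Adam
in the evaluation game, and the letter `k + 1` marks the positions of priority `k`. -/
def lab (A : Aut) : List A.Q → ℕ → Prop
  | [], _ => False
  | q :: w, p => (p = 0 ∧ ¬ eveOwn (lab A w) (A.δ q)) ∨ p = A.Ω q + 1

/-- The edges of the diagonal model. -/
def succ (A : Aut) : List A.Q → List A.Q → Prop
  | [], v => v = [A.q0]
  | q :: w, v => match A.δ q with
    | .const _ => False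
    | .lit _ _ => False
    | .var _ => False
    | .bin _ q1 q2 => v = q1 :: w ∨ v = q2 :: w
    | .mod _ q1 => ∃ w', succ A w w' ∧ v = q1 :: w'
    | .eps q1 => v = q1 :: w

/-- The diagonal model: a point `q :: w` is the position `(q, w)` of the evaluation game of `A` on
the diagonal model itself. -/
def diag (A : Aut) : Kripke := ⟨List A.Q, succ A, fun p => {w | lab A w p}⟩

/-- The empty interpretation of the variables. -/
def noVar (M : Kripke) : ℕ → Set M.W := fun _ => ∅

theorem succ_cons (A : Aut) (q : A.Q) (w v : List A.Q) :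
    succ A (q :: w) v ↔ ∃ r : A.Q × (diag A).W, mvRel (diag A) (A.δ q) w r ∧ v = r.1 :: r.2 := by
  rw [succ]
  cases A.δ q with
  | const b =>
    constructor
    · intro h; exact h.elim
    · rintro ⟨r, h, _⟩; exact h.elim
  | lit b p =>
    constructor
    · intro h; exact h.elim
    · rintro ⟨r, h, _⟩; exact h.elim
  | var x =>
    constructor
    · intro h; exact h.elim
    · rintro ⟨r, h, _⟩; exact h.elim
  | bin b q1 q2 =>
    constructor
    · rintro (h | h)
      · exact ⟨(q1, w), ⟨Or.inl rfl, rfl⟩, h⟩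
      · exact ⟨(q2, w), ⟨Or.inr rfl, rfl⟩, h⟩
    · rintro ⟨⟨r1, r2⟩, ⟨h1, h2⟩, rfl⟩
      have h2' : r2 = w := h2
      subst h2'
      rcases h1 with h1 | h1
      · left; exact congrArg (· :: r2) h1
      · right; exact congrArg (· :: r2) h1
  | mod b q1 =>
    constructor
    · rintro ⟨w', h1, h2⟩
      exact ⟨(q1, w'), ⟨rfl, h1⟩, h2⟩
    · rintro ⟨⟨r1, r2⟩, ⟨h1, h2⟩, rfl⟩
      have h1' : r1 = q1 := h1
      subst h1'
      exact ⟨r2, h2, rfl⟩
  | eps q1 =>
    constructor
    · intro h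
      exact ⟨(q1, w), ⟨rfl, rfl⟩, h⟩
    · rintro ⟨⟨r1, r2⟩, ⟨h1, h2⟩, rfl⟩
      have h1' : r1 = q1 := h1
      have h2' : r2 = w := h2
      subst h1' h2'
      rfl

theorem eveOwn_iff (A : Aut) (d : Tr A.Q) (w : List A.Q) :
    eveOwn (lab A w) d ↔ ownOf (diag A) (noVar (diag A)) d w = true := by
  classical
  cases d with
  | const b => cases b <;> simp [eveOwn, ownOf]
  | lit b p =>
    unfold eveOwn ownOf
    rw [decide_eq_true_eq]
    rfl
  | var x =>
    unfold eveOwn ownOf
    rw [decide_eq_true_eq]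
    exact ⟨fun _ => Set.notMem_empty _, fun _ => trivial⟩
  | bin b q r => simp [eveOwn, ownOf]
  | mod b q => simp [eveOwn, ownOf]
  | eps q => simp [eveOwn, ownOf]

/-! ### The Kripke model of a strategy -/

section strategy

variable {b : Bool} {A : Aut} (s : Strat b (game A (diag A) (noVar (diag A)))) (z0 : s.Z) (N : ℕ)

/-- The point of the diagonal model below a point of the strategy model. -/
def proj : Option s.Z ⊕ List A.Q → List A.Q
  | Sum.inl none => []
  | Sum.inl (some z) => (s.π z).1 :: (s.π z).2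
  | Sum.inr w => w

def stratR : Option s.Z ⊕ List A.Q → Option s.Z ⊕ List A.Q → Prop
  | Sum.inl none, Sum.inl (some z') => z' = z0
  | Sum.inl (some z), Sum.inl (some z') => s.S z z'
  | Sum.inl (some z), Sum.inr v =>
      ownOf (diag A) (noVar (diag A)) (A.δ (s.π z).1) (s.π z).2 = b ∧
        succ A ((s.π z).1 :: (s.π z).2) v
  | Sum.inr w, Sum.inr v => succ A w v
  | _, _ => False

/-- The strategy model. -/
def stratK : Kripke where
  W := Option s.Z ⊕ List A.Q
  R := stratR s z0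
  V p := {x | (p ≤ N ∧ lab A (proj s x) p) ∨ (N < p ∧ ∃ z, x = Sum.inl z)}

theorem stratK_bdd (hz0 : s.π z0 = (A.q0, ([] : List A.Q))) :
    BddMor {p | p ≤ N} (stratK s z0 N) (diag A) (proj s) := by
  refine ⟨?_, ?_, ?_⟩
  · rintro ((_ | z) | w) ((_ | z') | v) h
    · exact h.elim
    · have h' : z' = z0 := h
      subst h'
      show succ A [] ((s.π z').1 :: (s.π z').2)
      rw [hz0]
      rfl
    · exact h.elim
    · exact h.elim
    · have h1 := s.legal z z' h
      exact (succ_cons A _ _ _).2 ⟨s.π z', h1, rfl⟩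
    · exact h.2
    · exact h.elim
    · exact h.elim
    · exact h
  · rintro ((_ | z) | w) v h
    · have h' : v = [A.q0] := h
      refine ⟨Sum.inl (some z0), rfl, ?_⟩
      show (s.π z0).1 :: (s.π z0).2 = v
      rw [hz0, h']
    · have h' : succ A ((s.π z).1 :: (s.π z).2) v := h
      by_cases ho : ownOf (diag A) (noVar (diag A)) (A.δ (s.π z).1) (s.π z).2 = b
      · exact ⟨Sum.inr v, ⟨ho, h'⟩, rfl⟩
      · obtain ⟨r, hr1, hr2⟩ := (succ_cons A _ _ _).1 h'
        obtain ⟨z', h1, h2⟩ := s.opp_step z ho r hr1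
        refine ⟨Sum.inl (some z'), h1, ?_⟩
        show (s.π z').1 :: (s.π z').2 = v
        rw [h2, hr2]
    · exact ⟨Sum.inr v, h, rfl⟩
  · intro p hp x
    have hp' : p ≤ N := hp
    constructor
    · rintro (⟨_, h⟩ | ⟨h, _⟩)
      · exact h
      · omega
    · intro h
      exact Or.inl ⟨hp', h⟩

theorem stratK_St (c : Bool) (x : (stratK s z0 N).W) :
    St (stratK s z0 N) N c x ↔ ∃ z, x = Sum.inl z := by
  have hlt : N < sLet N c := by unfold sLet; split <;> omega
  constructor
  · rintro (⟨h, _⟩ | ⟨_, h⟩)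
    · omega
    · exact h
  · intro h
    exact Or.inr ⟨hlt, h⟩

theorem stratK_V0 (z : s.Z) :
    (Sum.inl (some z) : (stratK s z0 N).W) ∈ (stratK s z0 N).V 0 ↔
      ¬ ownOf (diag A) (noVar (diag A)) (A.δ (s.π z).1) (s.π z).2 = true := by
  constructor
  · rintro (⟨_, h | h⟩ | ⟨h, _⟩)
    · exact fun h' => h.2 ((eveOwn_iff A _ _).2 h')
    · omega
    · omega
  · intro h
    exact Or.inl ⟨Nat.zero_le _, Or.inl ⟨rfl, fun h' => h ((eveOwn_iff A _ _).1 h')⟩⟩

theorem stratK_Own (c : Bool) (hc : c = !b) (z : s.Z) :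
    Own (stratK s z0 N) c (Sum.inl (some z)) ↔
    ownOf (diag A) (noVar (diag A)) (A.δ (s.π z).1) (s.π z).2 = b := by
  have h : Own (stratK s z0 N) c (Sum.inl (some z)) ↔
      ((¬ ownOf (diag A) (noVar (diag A)) (A.δ (s.π z).1) (s.π z).2 = true) ↔ c = true) :=
    iff_congr (stratK_V0 s z0 N z) Iff.rfl
  refine h.trans ?_
  subst hc
  cases b <;> cases ownOf (diag A) (noVar (diag A)) (A.δ (s.π z).1) (s.π z).2 <;> simp

theorem stratK_root (hA : ∀ q, A.Ω q + 1 ≤ N) (c : Bool) (hc : c = !b)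
    (e : ℕ → Set (stratK s z0 N).W) :
    (Sum.inl none : (stratK s z0 N).W) ∈ (Phi N c).sem (stratK s z0 N) e := by
  have hprio : ∀ j, 1 ≤ j → j ≤ N → ∀ z : s.Z,
      ((Sum.inl (some z) : (stratK s z0 N).W) ∈ (stratK s z0 N).V j ↔ j = A.Ω (s.π z).1 + 1) := by
    intro j hj1 hj2 z
    constructor
    · rintro (⟨_, h | h⟩ | ⟨h, _⟩)
      · omega
      · exact h
      · omega
    · intro h
      exact Or.inl ⟨hj2, Or.inr h⟩
  refine Phi_of_region (stratK s z0 N) N c e {x | ∃ z, x = Sum.inl z} ?_ ?_ ?_ ⟨none, rfl⟩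
  · rintro _ ⟨_ | z, rfl⟩ ho
    · exact ⟨Sum.inl (some z0), rfl, (stratK_St s z0 N c _).2 ⟨_, rfl⟩⟩
    · obtain ⟨z', hz'⟩ := s.own_step z ((stratK_Own s z0 N c hc z).1 ho)
      exact ⟨Sum.inl (some z'), hz', (stratK_St s z0 N c _).2 ⟨_, rfl⟩⟩
  · rintro _ ⟨_ | z, rfl⟩ v ⟨h1, h2⟩
    · rcases v with (_ | z') | v
      · exact h1.elim
      · exact ⟨_, rfl⟩
      · exact h1.elim
    · rcases v with (_ | z') | v
      · exact h1.elim
      · exact ⟨_, rfl⟩
      · have h3 := h2 ((stratK_Own s z0 N c hc z).2 h1.1)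
        exact (stratK_St s z0 N c _).1 h3
  · intro g hgZ hgE j hjN hbad hGA hinf
    -- the path in the strategy
    have key : ∀ n, ∃ z, g (1 + n) = Sum.inl (some z) := by
      intro n
      obtain ⟨u, hu⟩ := hgZ n
      obtain ⟨v, hv⟩ := hgZ (n + 1)
      have h1 := (hgE n).1
      rw [hu, hv] at h1
      rw [Nat.add_comm]
      rcases v with _ | v
      · rcases u with _ | u
        · exact h1.elim
        · exact h1.elim
      · exact ⟨v, hv⟩
    choose h hh using key
    have hS : ∀ n, s.S (h n) (h (n + 1)) := by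
      intro n
      have h1 := (hgE (1 + n)).1
      have e1 : 1 + n + 1 = 1 + (n + 1) := by omega
      rw [e1, hh n, hh (n + 1)] at h1
      exact h1
    obtain ⟨k, hk, hk1, n0, hk2⟩ := s.good h hS
    have hk1' : ∀ n, ∃ m, n ≤ m ∧ A.Ω (s.π (h m)).1 = k := hk1
    have hk2' : ∀ m, n0 ≤ m → A.Ω (s.π (h m)).1 ≤ k := hk2
    have hkN : k + 1 ≤ N := by
      obtain ⟨m, _, hm⟩ := hk1' 0
      rw [← hm]
      exact hA _
    have hkc : (k + 1) % 2 = 0 ↔ c = true := by
      rw [hc]
      cases b <;> simp at hk ⊢ <;> omega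
    have hjk : j < k + 1 := by
      by_cases hj0 : j = 0
      · omega
      · obtain ⟨m, hm, hm'⟩ := hinf (1 + n0)
        have e1 : 1 + (m - 1) = m := by omega
        rcases hm' with hm' | hm'
        · exact absurd hm' hj0
        · rw [← e1, hh (m - 1)] at hm'
          have h3 := (hprio j (by omega) hjN _).1 hm'
          have h4 := hk2' (m - 1) (by omega)
          have h5 : j ≠ k + 1 := fun h => hbad (h ▸ hkc)
          omega
    obtain ⟨m, _, hm⟩ := hk1' 0
    apply hGA (1 + m)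
    refine ⟨k + 1, hjk, hkN, hkc, ?_⟩
    rw [hh m]
    exact (hprio (k + 1) (by omega) hkN _).2 (by rw [hm])

end strategy

/-! ### No interpolant -/

theorem sem_closed (M : Kripke) (φ : Fm) (h : φ.FV = ∅) (e e' : ℕ → Set M.W) :
    φ.sem M e = φ.sem M e' := by
  apply sem_congr
  intro x hx
  rw [h] at hx
  exact absurd hx (Set.notMem_empty x)

theorem sem_dual_closed (M : Kripke) (φ : Fm) (h : φ.FV = ∅) (e : ℕ → Set M.W) :
    φ.dual.sem M e = (φ.sem M e)ᶜ := by
  rw [← sem_dual M φ e]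
  apply sem_closed
  rw [FV_dual, h]

theorem validImp_Phi (N : ℕ) : ValidImp (Phi N true) (Phi N false).dual := by
  intro M e w hw
  rw [sem_dual_closed M _ (FV_Phi N false)]
  intro h
  exact Phi_disjoint M N e w hw h

theorem no_interpolant (n : ℕ) (χ : Fm) (hχ : Rep n (fun M e => χ.sem M e))
    (hL : χ.letters ⊆ {p | p ≤ n + 1}) (h1 : ValidImp (Phi (n + 1) true) χ)
    (h2 : ValidImp χ (Phi (n + 1) false).dual) : False := by
  obtain ⟨A, hA1, hA2⟩ := hχ
  have hA1' : ∀ q, A.Ω q + 1 ≤ n + 1 := fun q => Nat.succ_le_succ (hA1 q)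
  -- the strategy model of the player `b`
  have key : ∀ b : Bool, Holds b (χ.sem (diag A) (noVar (diag A))) ([] : List A.Q) →
      ∃ (K : Kripke) (f : K.W → (diag A).W) (r : K.W), BddMor {p | p ≤ n + 1} K (diag A) f ∧
        f r = ([] : List A.Q) ∧ ∀ e, r ∈ (Phi (n + 1) (!b)).sem K e := by
    intro b hb
    obtain ⟨s, z0, hz0⟩ := hA2 (diag A) (noVar (diag A)) b ([] : List A.Q) hb
    exact ⟨stratK s z0 (n + 1), proj s, Sum.inl none, stratK_bdd s z0 (n + 1) hz0, rfl,
      fun e => stratK_root s z0 (n + 1) hA1' (!b) rfl e⟩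
  by_cases h : ([] : List A.Q) ∈ χ.sem (diag A) (noVar (diag A))
  · obtain ⟨K, f, r, hf, hr, hPhi⟩ := key true ⟨fun _ => rfl, fun _ => h⟩
    have h3 : r ∈ χ.sem K (fun x => f ⁻¹' (noVar (diag A) x)) := by
      rw [sem_bddMor hf χ hL]
      show f r ∈ χ.sem (diag A) (noVar (diag A))
      rw [hr]
      exact h
    have h4 := h2 K _ r h3
    rw [sem_dual_closed K _ (FV_Phi (n + 1) false)] at h4
    exact h4 (hPhi _)
  · obtain ⟨K, f, r, hf, hr, hPhi⟩ := key false
      ⟨fun h' => absurd h' h, fun h' => absurd h' Bool.false_ne_true⟩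
    have h3 : r ∈ χ.sem K (fun x => f ⁻¹' (noVar (diag A) x)) := h1 K _ r (hPhi _)
    rw [sem_bddMor hf χ hL] at h3
    have h4 : f r ∈ χ.sem (diag A) (noVar (diag A)) := h3
    rw [hr] at h4
    exact h h4

theorem common_letters (N : ℕ) :
    (Phi N true).letters ∩ (Phi N false).dual.letters ⊆ {p | p ≤ N} := by
  rintro p ⟨h1, h2⟩
  rw [letters_dual] at h2
  rcases letters_Phi N true h1 with h3 | h3
  · exact h3
  · rcases letters_Phi N false h2 with h4 | h4
    · exact h4
    · exfalso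
      have h5 : p = N + 1 := h3
      have h6 : p = N + 2 := h4
      omega

/-- For every `n` there are closed formulas `φ` in `Sigma_2` and `ψ` in `Pi_2` such that `φ → ψ` is
valid but has no interpolant in `Sigma_n` or `Pi_n`. -/
theorem main (n : ℕ) : ∃ φ ∈ SigmaLevel 2, ∃ ψ ∈ PiLevel 2, φ.FV = ∅ ∧ ψ.FV = ∅ ∧ ValidImp φ ψ ∧
    ∀ χ ∈ SigmaLevel n ∪ PiLevel n, χ.letters ⊆ φ.letters ∩ ψ.letters →
      ¬ (ValidImp φ χ ∧ ValidImp χ ψ) := by
  refine ⟨Phi (2 * n + 2) true, Phi_mem _ _, (Phi (2 * n + 2) false).dual,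
    (dual_level 2).1 _ (Phi_mem _ _), FV_Phi _ _, by rw [FV_dual, FV_Phi], validImp_Phi _, ?_⟩
  rintro χ hχ hL ⟨h1, h2⟩
  have hrep : Rep (2 * n + 1) (fun M e => χ.sem M e) := by
    rcases hχ with hχ | hχ
    · exact (rep_level n).1 χ hχ
    · exact ((rep_level n).2 χ hχ).mono (by omega)
  exact no_interpolant (2 * n + 1) χ hrep (hL.trans (common_letters _)) h1 h2

theorem level_mono_succ (n : ℕ) : SigmaLevel n ∪ PiLevel n ⊆ SigmaLevel (n + 1) ∩ PiLevel (n + 1) :=
  fun φ h => ⟨MuClosure.base φ h, NuClosure.base φ h⟩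

theorem two_subset (n : ℕ) (hn : 3 ≤ n) :
    SigmaLevel 2 ∪ PiLevel 2 ⊆ SigmaLevel n ∩ PiLevel n := by
  induction n, hn using Nat.le_induction with
  | base => exact level_mono_succ 2
  | succ n _ ih =>
    intro φ h
    exact level_mono_succ n (Or.inl (ih h).1)

end Pool.Agent.MuCraig
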